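import Mathlib
import Pool.Agent.H55.FE.Defs
import Pool.Agent.H55.FE.Full

set_option autoImplicit false

/-!
# Uniform bounds in every dimension: definitions and small lemmas

As in `Pool.Agent.H55.FE.Defs`, with arbitrary constants `κ` (underdetermined traces), `c`
(overdetermined traces) and `c'` (overdetermined side in dimension `E + 2`).
-/

namespace Pool.Agent.H55.FU

open Pool.Agent.W608.PR

/-- The number of forms of degree `m - 1` in `E + 1` variables. -/
def aa (E m : ℕ) : ℕ := (m - 1 + E).choose E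

/-- The special value of `κ`. -/
def kA (E m : ℕ) : ℕ := aa E m * sz E m + 1

/-- The special value of `c`. -/
def cA (E m : ℕ) : ℕ := aa E m * sz E m

/-- The special value of `c'`. -/
def cB (E m : ℕ) : ℕ := aa (E + 1) m * Sz E m

/-- At most so many simple conditions are used in one step. -/
def Rg (E m κ : ℕ) : ℕ := κ + sz E m

/-- The largest excess of a trace on the overdetermined side. -/
def Yg (E m c : ℕ) : ℕ := c + sz E m

/-- The excess which guarantees emptiness in degree `e`. -/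
def Xg (E m c c' L e : ℕ) : ℕ := m * (Nn E L + Yg E m c) + c' + e * Yg E m c

/-- The number of simple points which guarantees emptiness in degree `e`. -/
def Qg (E m κ L e : ℕ) : ℕ := dm E L + e * Rg E m κ

/-- Traces: the points outside of `F` are simple or absent, the others have `κ` conditions less than
there are monomials. -/
def TPk (K : Type) [Field K] (E m κ : ℕ) : Prop :=
  ∀ (ι : Type) [Fintype ι] (u : ι → ℕ) (F : Finset ι) (e : ℕ), (∀ i, u i ≤ m) →
    (∀ i, i ∉ F → u i ≤ 1) → ∑ i ∈ F, sz E (u i) + κ ≤ Nn E e →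
    Nn E e ≤ ∑ i, sz E (u i) → TE E K u e

/-- Traces on the overdetermined side. -/
def TNk (K : Type) [Field K] (E m c : ℕ) : Prop :=
  ∀ (ι : Type) [Fintype ι] (u : ι → ℕ) (e : ℕ), (∀ i, u i ≤ m) →
    Nn E e + c ≤ ∑ i, sz E (u i) → TE E K u e

/-- The overdetermined side in dimension `E + 2`, points outside of the hyperplane only. -/
def CNk (K : Type) [Field K] (E m c' : ℕ) : Prop :=
  ∀ (ι : Type) [Fintype ι] [DecidableEq ι] (S : Finset ι) (A : ι → Finset ℕ) (e : ℕ),
    (∀ i, A i ⊆ Finset.Icc 1 m) → (∀ i, i ∉ S → A i = Finset.Icc 1 (mx (A i))) →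
    dm E e + c' ≤ ∑ i ∈ Sᶜ, cn E (A i) →
    CE E K (fun i => i ∈ S) (fun i => prof (A i)) e

/-- The numerical conditions for the passage from degree `e + 1` to degree `e`. -/
def Cndg (E m κ c c' L e : ℕ) : Prop :=
  (m - 1) * Nn E (e + 1) + (m + E) * (Rg E m κ * sz E m + κ + Xg E m c c' L (e + 1)) ≤
    (m + E) * Nn E e ∧
  (m + E + 1) * (Rg E m κ * sz E m) + m * Nn E (e + 1) ≤ (e + 2) * Nn E (e + 1) ∧ L ≤ e

variable {E : ℕ}

theorem Sz_ratio (E v : ℕ) : (E + 2) * Sz E v = (v + E + 1) * sz E v := by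
  unfold Sz sz
  have h := Nat.add_one_mul_choose_eq (v + E) (E + 1)
  rw [show v + E + 1 = (v + E) + 1 by ring, h]
  ring

theorem dm_up (E e : ℕ) : (E + 2) * dm E e = (e + E + 2) * Nn E e := by
  rw [mul_comm, dm_ratio]

theorem cn_le_Szmx {A : Finset ℕ} {m : ℕ} (h : A ⊆ Finset.Icc 1 m) : cn E A ≤ Sz E (mx A) := by
  refine cn_le_Sz fun v hv => ?_
  rw [Finset.mem_Icc]
  exact ⟨(Finset.mem_Icc.1 (h hv)).1, le_mx hv⟩

/-- The conditions of a point in terms of the conditions of its largest slice. -/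
theorem cn_ratio {A : Finset ℕ} {m M : ℕ} (h : A ⊆ Finset.Icc 1 m) (hM : mx A ≤ M) :
    (E + 2) * cn E A ≤ (M + E + 1) * sz E (mx A) := by
  refine (Nat.mul_le_mul_left _ (cn_le_Szmx h)).trans ?_
  rw [Sz_ratio]
  exact Nat.mul_le_mul_right _ (by omega)

/-- The room for simple points is preserved. -/
theorem roomk {m e T T' κ : ℕ} (h : (m + E) * T' ≤ (m - 1) * T) (hT : T + κ ≤ Nn E (e + 1))
    (hm : 1 ≤ m) (hK : 2 * κ ≤ Nn E e) (he : 2 * m ≤ e + 3) : T' + κ ≤ Nn E e := by
  have h1 := Nn_ratio E e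
  obtain ⟨k, rfl⟩ : ∃ k, m = k + 1 := ⟨m - 1, by omega⟩
  rw [Nat.add_sub_cancel] at h
  generalize Nn E e = N at h1 hK ⊢
  generalize Nn E (e + 1) = N' at h1 hT
  obtain ⟨f, hf⟩ : ∃ f, e + 1 = k + f ∧ k ≤ f := ⟨e + 1 - k, by omega, by omega⟩
  obtain ⟨hf1, hf2⟩ := hf
  have h2 : (e + 1) * ((k + 1 + E) * (T' + κ)) ≤ (e + 1) * ((k + 1 + E) * N) := by
    have h3 : (e + 1) * ((k + 1 + E) * T') ≤ (e + 1) * (k * T) := Nat.mul_le_mul_left _ h
    have h4 : k * ((e + 1) * (T + κ)) ≤ k * ((e + 1) * N') :=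
      Nat.mul_le_mul_left _ (Nat.mul_le_mul_left _ hT)
    have h5 : k * ((e + 1) * N') = k * (N * (e + E + 2)) := by rw [h1]; ring
    have h6 : (e + 1) * (E + 1) * κ ≤ (E + 1) * f * N := by
      have h8 : (e + 1) * κ ≤ (2 * f) * κ := Nat.mul_le_mul_right _ (by omega)
      have h9 : f * (2 * κ) ≤ f * N := Nat.mul_le_mul_left _ hK
      have h14 : (e + 1) * κ ≤ f * N := by
        refine h8.trans (le_trans (le_of_eq ?_) h9)
        ring
      calc (e + 1) * (E + 1) * κ = (E + 1) * ((e + 1) * κ) := by ring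
        _ ≤ (E + 1) * (f * N) := Nat.mul_le_mul_left _ h14
        _ = (E + 1) * f * N := by ring
    have h10 : (e + 1) * ((k + 1 + E) * N) = k * (N * (e + E + 2)) + (E + 1) * f * N := by
      rw [show e + E + 2 = (e + 1) + (E + 1) by ring, hf1]
      ring
    have h11 : (e + 1) * ((k + 1 + E) * (T' + κ)) =
        (e + 1) * ((k + 1 + E) * T') + k * ((e + 1) * κ) + (e + 1) * (E + 1) * κ := by ring
    have h12 : k * ((e + 1) * (T + κ)) = (e + 1) * (k * T) + k * ((e + 1) * κ) := by ring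
    rw [h11, h10, ← h5]
    omega
  have h13 : 0 < (e + 1) * (k + 1 + E) := by positivity
  refine le_of_mul_le_mul_left (?_ : (e + 1) * (k + 1 + E) * _ ≤ (e + 1) * (k + 1 + E) * _) h13
  rw [mul_assoc, mul_assoc]
  exact h2

end Pool.Agent.H55.FU
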