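import Mathlib
import Pool.Agent.H55.FU.Defs

set_option autoImplicit false

/-!
# Statements of the modules (project FU of helper55, problem MP_b56c98_ag)

THEOREM A. For ALL `n ≥ 2`, all `m ≥ 1` and all numbers of general points of `ℙⁿ` with multiplicities at
most `m` the Hilbert function is the expected one in all degrees `d ≥ 729 m ^ 4` (the bound does not
depend on `n`).
THEOREM B. For every `m ≥ 1` there is `n₀` such that for ALL `n ≥ n₀` it is the expected one in all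
degrees `d ≥ 4 m`.

The modules are those of project FE (`Pool/Agent/H55/FE/*.lean`: Tl, E1, E2, Mk, TPN, CNN, Hvp, Gs)
with general constants `κ`, `c`, `c'` and WEAKER conditions on the degrees: the inequality
`∑ cn ≤ m * ∑ sz (mx)` with `dm_ge` is replaced by the sharper `cn_ratio`:
`(E + 2) * cn E A ≤ (mx A + E + 1) * sz E (mx A)` with `dm_up`:
`(E + 2) * dm E e = (e + E + 2) * Nn E e`.
Every module is a file `Pool/Agent/H55/FU/<Name>.lean` that imports `Pool.Agent.H55.FU.Stm`.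
-/

namespace Pool.Agent.H55.FU

open Pool.Agent.W608.PR

/-- (TP) As `tP'` in FE/TPN.lean, for general `κ`. -/
def S_TP : Prop :=
  ∀ E m κ : ℕ, 1 ≤ E → (∀ (e : ℕ) (s t : Multiset ℕ), (∀ v ∈ s, v ≤ m) → (∀ v ∈ t, v ≤ 1) →
    (s.map (sz E)).sum + κ ≤ Nn E e → Nn E e ≤ (s.map (sz E)).sum + (t.map (sz E)).sum →
    K4H38FP.hv ℂ (Fin (E + 1 + 1)) e (s + t) = 0) → TPk ℂ E m κ

/-- (TN) As `tN'` in FE/TPN.lean, for general `c`. -/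
def S_TN : Prop :=
  ∀ E m c : ℕ, 1 ≤ E → (∀ (e : ℕ) (s : Multiset ℕ), (∀ v ∈ s, v ≤ m) →
    Nn E e + c ≤ (s.map (sz E)).sum → K4H38FP.hv ℂ (Fin (E + 1 + 1)) e s = 0) → TNk ℂ E m c

/-- (CN) As `cNN'` in FE/CNN.lean, for general `c'`. -/
def S_CN : Prop :=
  ∀ E m c' : ℕ, 1 ≤ E → (∀ (e : ℕ) (s : Multiset ℕ), (∀ v ∈ s, v ≤ m) →
    Nn (E + 1) e + c' ≤ (s.map (sz (E + 1))).sum →
    K4H38FP.hv ℂ (Fin (E + 1 + 1 + 1)) e s = 0) → CNk ℂ E m c'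

/-- (hvpA) Underdetermined side, constant `aa E m * sz E m + 1`. PROOF. Let `n = E + 1 ≥ 2`,
`S = K4H38FP.sys (n := n) _ e` (structure `Sys`, library K4H38/FP/Seq.lean),
`K4H38FP.nc n v = sz E v` (`sz_eq_nc` in FE/Hvp.lean), `ak (Fin (n + 1)) (m - 1) = aa E m`
(`K4H38FP.ak_fin`). The hypothesis forces `m ≤ e + 1` (else `sz E m > Nn E e`). `Sys.lower` with
`M = m` gives `hv s = choose - ∑ nc`; then the simple points `t` as in `hvp` of FE/Hvp.lean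
(`hv_add_le`, `sum_sz_simple`). -/
def S_hvpA : Prop :=
  ∀ (E m e : ℕ) (s t : Multiset ℕ), 1 ≤ E → 1 ≤ m → (∀ v ∈ s, v ≤ m) → (∀ v ∈ t, v ≤ 1) →
    (s.map (sz E)).sum + kA E m ≤ Nn E e → Nn E e ≤ (s.map (sz E)).sum + (t.map (sz E)).sum →
    K4H38FP.hv ℂ (Fin (E + 1 + 1)) e (s + t) = 0

/-- (hvnA) Overdetermined side. PROOF. If a member of `s` is `> e`: `hv_top`. The case that all
members are `0` cannot occur. Let `k + 1` be the largest member, `s = (k + 1) ::ₘ s'`, `k + 1 ≤ e`: if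
`hv ≠ 0`, `Sys.upper` (library K4H38/FP/Seq.lean) gives
`∑ nc (s) + hv s ≤ choose + (a k - 1) * nc n (k + 1)`, `a k ≤ aa E m`. -/
def S_hvnA : Prop :=
  ∀ (E m e : ℕ) (s : Multiset ℕ), 1 ≤ E → 1 ≤ m → (∀ v ∈ s, v ≤ m) →
    Nn E e + cA E m ≤ (s.map (sz E)).sum → K4H38FP.hv ℂ (Fin (E + 1 + 1)) e s = 0

/-- (TL) As FE/Tl.lean; conditions on `e` only `L0 + a ≤ e`. PROOF: as there, with `roomk` for `room`;
the proof of `hr : Nn E (e + 1) - T ≤ B.card` is now: `(E + 2) * ∑ cn (A' i) ≤ (m + E) * T'` by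
`cn_ratio` with `M = m - 1` (`mx_erase_mx_le`), `(m + E) * T' ≤ (m - 1) * T` (`T_reg`),
`(m - 1) * Nn E (e + 1) ≤ (E + 2) * dm E e = (e + 1) * Nn E (e + 1)` (`dm_up`, `Nn_ratio`), as
`m ≤ e + 2` (from `2 * m ≤ L0 + 3`, `L0 ≤ e`). -/
def S_TL : Prop :=
  ∀ (K : Type) [Field K] [Infinite K] (E m κ L0 : ℕ), TPk K E m κ → 1 ≤ m → 2 * κ ≤ Nn E L0 →
    2 * m ≤ L0 + 3 → ∀ (ι : Type) [Fintype ι] [DecidableEq ι] (a e : ℕ) (A : ι → Finset ℕ)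
      (B : Finset ι), (∀ i, A i ⊆ Finset.Icc 1 m) →
      (∀ i ∈ B, A i = {1}) → (∀ i, i ∉ B → (A i).card ≤ a) →
      ∑ i ∈ Bᶜ, sz E (mx (A i)) + κ ≤ Nn E e → L0 + a ≤ e → dm E e ≤ ∑ i, cn E (A i) →
      CE E K (fun i => i ∈ Bᶜ) (fun i => prof (A i)) e

/-- (E1) As FE/E1.lean, for general `κ`; conditions on `L` only `L0 + m ≤ L`. -/
def S_E1 : Prop :=
  ∀ (K : Type) [Field K] [Infinite K] (E m κ L0 L : ℕ), TPk K E m κ → 1 ≤ m → 2 * κ ≤ Nn E L0 →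
    2 * m ≤ L0 + 3 → L0 + m ≤ L →
    ∀ (ι : Type) [Fintype ι] [DecidableEq ι] (e : ℕ) (S : Finset ι) (A : ι → Finset ℕ)
      (B : Finset ι), (∀ i, A i ⊆ Finset.Icc 1 m) →
      (∀ i, i ∉ S → A i = Finset.Icc 1 (mx (A i))) →
      (∀ i ∈ B, i ∉ S ∧ A i = {1}) → ∑ i ∈ S, sz E (mx (A i)) + κ ≤ Nn E e →
      dm E e ≤ ∑ i, cn E (A i) → Qg E m κ L e ≤ B.card →
      CE E K (fun i => i ∈ S) (fun i => prof (A i)) e

/-- (E2) As FE/E2.lean, for general `c`, `c'`; condition on `L` only `m ≤ L`. PROOF: as there; case (i)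
`T + O < Nn E (e + 1) + c` of the step from `e` to `e + 1 > L` is now excluded by
`(E + 2) * ∑ cn ≤ (m + E + 1) * (T + O)` (`cn_ratio`), `(m + E + 1) * Nn E (e + 1) ≤
(e + E + 3) * Nn E (e + 1) = (E + 2) * dm E (e + 1)` and
`(m + E + 1) * c ≤ (E + 2) * (m * c) ≤ (E + 2) * Xg E m c c' L (e + 1)`. -/
def S_E2 : Prop :=
  ∀ (K : Type) [Field K] [Infinite K] (E m c c' L : ℕ), TNk K E m c → CNk K E m c' → 1 ≤ m → m ≤ L →
    ∀ (ι : Type) [Fintype ι] [DecidableEq ι] (e : ℕ) (S : Finset ι) (A : ι → Finset ℕ),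
      (∀ i, A i ⊆ Finset.Icc 1 m) → (∀ i, i ∉ S → A i = Finset.Icc 1 (mx (A i))) →
      ∑ i ∈ S, sz E (mx (A i)) ≤ Nn E e + Yg E m c →
      dm E e + Xg E m c c' L e ≤ ∑ i, cn E (A i) →
      CE E K (fun i => i ∈ S) (fun i => prof (A i)) e

/-- (Mk) As FE/Mk.lean, for general constants, with `Cndg`. PROOF: as there; instead of
`Nn E (e + 1) + Rc * sz ≤ ∑ J` prove `Nn E (e + 1) + Rg * sz ≤ T + ∑ J` from `cn_ratio`, `dm_up` and the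
second part of `Cndg`: `(m + E + 1) * (T + ∑ J) ≥ (E + 2) * ∑ cn ≥ (E + 2) * dm E (e + 1) =
(e + E + 3) * Nn E (e + 1)`. Since `T ≤ Nn E (e + 1)` this gives `Rg ≤ J.card` and
`Nn E (e + 1) - κ - T ≤ ∑ (J \ J2)`. -/
def S_Mk : Prop :=
  ∀ (K : Type) [Field K] [Infinite K] (E m κ c c' L0 L : ℕ), TPk K E m κ → TNk K E m c →
    CNk K E m c' → 1 ≤ m → 2 * κ ≤ Nn E L0 → 2 * m ≤ L0 + 3 → L0 + m ≤ L →
    ∀ (ι : Type) [Fintype ι] [DecidableEq ι] (k e : ℕ) (S : Finset ι) (A : ι → Finset ℕ)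
      (B : Finset ι), 1 ≤ k →
      (∀ e', e' < e → e ≤ e' + k → Cndg E m κ c c' L e') → (∀ i, A i ⊆ Finset.Icc 1 m) →
      (∀ i, i ∉ S → A i = Finset.Icc 1 (mx (A i))) →
      (∀ i ∈ B, i ∈ S ∧ A i = Finset.Icc 1 k) → Qg E m κ L e ≤ B.card →
      ∑ i ∈ S, sz E (mx (A i)) + κ + Xg E m c c' L e ≤ Nn E e →
      dm E e ≤ ∑ i, cn E (A i) → 1 ≤ e →
      CE E K (fun i => i ∈ S) (fun i => prof (A i)) e

/-- The numerical conditions for the degree `d`. -/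
def Good (E m κ c c' L d : ℕ) : Prop :=
  1 ≤ d ∧ (∀ e, e < d → d ≤ e + m → Cndg E m κ c c' L e) ∧
    m * (Sz E m * Qg E m κ L d) < dm E d ∧
    Qg E m κ L d * sz E m + κ + Xg E m c c' L d ≤ Nn E d

/-- (Gg) As FE/Gs.lean. -/
def S_Gg : Prop :=
  ∀ E m κ c c' L0 L D : ℕ, TPk ℂ E m κ → TNk ℂ E m c → CNk ℂ E m c' → 1 ≤ m →
    2 * κ ≤ Nn E L0 → 2 * m ≤ L0 + 3 → L0 + m ≤ L → (∀ d, D ≤ d → Good E m κ c c' L d) →
    G ℂ (E + 1) m D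

/-- (numA) The numerical part of Theorem A, for `n = E + 2 ≥ 4`, `k = E + 1 ≥ 3`. PROOF (all tested, large
slack). Write `F k x = (x - 1 + k).choose k` for `x ≥ 1`; then `aa E m = F (k-1) m`, `sz E m = F k m`,
`Nn E e = F k (e+1)`, `Sz E m = F (k+1) m`, `dm E e = F (k+1) (e+1)`. Tools: `F k x * F k y ≤ F k (x y)`
(induction on `k`: `(x+k)(y+k) ≤ (xy+k)(k+1)` as `(x-1)(y-1) ≥ 0`); `(m+k-1) F (k-1) m = k F k m`;
`F k Y ≥ (k/3) F 3 Y` for `k ≥ 3`, `Y ≥ 3`; `Nn_ratio`, `dm_up`. With `d = m ^ 3 * Y`, `Y ≥ 729 m`: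
`Nn E d ≥ (F k m) ^ 3 * F k Y`, `Rg ≤ 3 F (k-1) m * F k m`, and so `d * Rg * sz ≤ 3 d (F k m) ^ 3 k/(m+k-1)
≤ Nn E d / 100`, as `Y ^ 2 / 18 ≥ 100 * 3 * m ^ 2`; `dm E L * sz ≤ Nn E d / 100` by
`dm E L = Nn E L * (L+k+1)/(k+1)`, `Nn E L * sz ≤ F k ((2 m^2 + m + 1) m)`. For the first part of `Cndg`:
from `Nn_ratio`, `(e+1) ((m+E) Nn E e - (m-1) Nn E (e+1)) = (E+1) (e+2-m) Nn E e`, so it is enough that
`2 (m+E) (Rg * sz + κ + Xg (e+1)) ≤ (E+1) Nn E e` (`2 (e+2-m) ≥ e+1`). -/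
def S_numA : Prop :=
  ∀ E m : ℕ, 2 ≤ E → 1 ≤ m → 2 * kA E m ≤ Nn E (2 * m ^ 2) ∧
    ∀ d, 729 * m ^ 4 ≤ d → Good E m (kA E m) (cA E m) (cB E m) (2 * m ^ 2 + m) d

/-- (numB) The numerical part of Theorem B: `L0 = 2 m - 1`, `L = 3 m - 1`, all `d ≥ 4 m`, `n = E + 2`
large. PROOF. With `k = E + 1` all the terms are polynomials in `k`: `Nn E e = (k+e).choose e`,
`sz E m = Nn E (m-1)`, `aa E m ≤ Nn E (m-1)`, `Sz E m ≤ m * sz E m`, `dm E e ≤ (e+1) * Nn E e`. Tools: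
`Nn E x * Nn E y ≤ 2 ^ (x+y) * Nn E (x+y)`, `(e+1) Nn E (e+1) = (k+e+1) Nn E e`. So `2 κ ≤ C_m
Nn E (2m-2) ≤ C_m (2m-1)/k * Nn E (2m-1)`. For the first part of `Cndg` it is enough that
`2 (m+E) (Rg * sz + κ + Xg (e+1)) ≤ (E+1) Nn E e`, `e ≥ 3 m`; at `e = 3 m` all the terms of the left side
are at most `C_m * Nn E (3m-1)`, as `3 (m-1) ≤ 3 m - 1`; from `e` to `e + 1` the left side grows by
`2 (m+E) Yg`, the right side by `(E+1) * (e+E+1).choose E ...`. The other parts in the same way. -/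
def S_numB : Prop :=
  ∀ m : ℕ, 1 ≤ m → ∃ E0 : ℕ, 1 ≤ E0 ∧ ∀ E, E0 ≤ E → 2 * kA E m ≤ Nn E (2 * m - 1) ∧
    ∀ d, 4 * m ≤ d → Good E m (kA E m) (cA E m) (cB E m) (3 * m - 1) d

end Pool.Agent.H55.FU
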