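import Mathlib
import Pool.Agent.H55.FU.Stm

set_option autoImplicit false

/-!
# The third numerical statement (project FU)

THEOREM C. For all `n ≥ 4`, all `m ≤ n` and all numbers of general points of `ℙⁿ` with multiplicities at
most `m` the Hilbert function is the expected one in all degrees `d ≥ 128 m`. (Linear in `m`: optimal up to
the constant.)
-/

namespace Pool.Agent.H55.FU

open Pool.Agent.W608.PR

/-- (numC) `L0 = 8 m`, `L = 9 m`. PROOF (tested for thousands of triples; slack at least 5 at the worst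
point `E = 2`, `m = 4`, `d = 512`, exponentially growing with `m`). Put `k = E + 1 ≥ 3`, so `m ≤ k + 1`;
`s = sz E m = (m-1+k).choose k`, `a = aa E m ≤ s`, `k s = (m+k-1) a`, `N e = Nn E e = (e+k).choose k`.
Then `κ = a s + 1 ≤ 2 a s`, `κ + s ≤ 3 a s`, `c + s = Yg ≤ 2 a s`, `Sz E m ≤ 2 s` (`Sz_ratio`),
`cB ≤ 2 s ^ 2` (`aa (E+1) m = s`), `dm E (9m) ≤ 10 N (9m)` (`dm_up`), `m ≤ s`. So
(T) the last part of `Good` follows from `11 s N(9m) + 3 d a s^2 + 2 d a s + 2 a s + 2 m a s + 2 s^2 ≤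
N d`; (C1) with `(e+1) ((m+E) N e - (m-1) N (e+1)) = (E+1) (e+2-m) N e` (from `Nn_ratio`),
`2 (e+2-m) ≥ e+1`, `m + E ≤ 2 (E+1)`, the first part of `Cndg` follows from
`4 (3 a s^2 + 2 a s + s N(9m) + 2 m a s + 2 s^2 + 2 (e+1) a s) ≤ N e` for `e ≥ 127 m`; (C2) follows from
`N e ≥ 12 a s^2` and `(e+1) N (e+1) = (e+k+1) N e`; (F) follows from
`(k+1) (20 s N(9m) + 6 d a s^2) < 128 N d` as `(k+1) dm E d = (d+k+1) N d` and `d ≥ 128 m`.
The dependence on `d`: `N d / d` is increasing (`N (d+1) / N d = (d+k+1)/(d+1) ≥ (d+2)/(d+1)`...).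
The dependence on `k`: from `k` to `k+1` the left sides grow at most by a factor
`(1+x)^2 (1+9x)` or `(1+x)^2 (1+2x) (1+x)`, `x = m/(k+1) ≤ 1`, the right sides by `1 + d/(k+1) ≥ 1 + 127 x`.
So one needs `k = 3`, `m ≤ 4` (direct computation) and `k = m - 1`, `m ≥ 5`: there
`s = (2m-2).choose (m-1) ≤ 4^(m-1)/2`, `a = s/2`, `N(9m) = (10m-1).choose (m-1)`,
`N(128m) = (129m-1).choose (m-1) ≥ (128m)^(m-1)/(m-1)! ≥ 256^(m-1)` (`j! 2^j ≤ (j+1)^j`), and
`N(9m) ≤ 30^(m-1)` or similar, e.g. from the ratio of the cases `m`, `m+1` or `choose ≤ (e N/j)^j`;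
`N(8m) ≥ (16)^(m-1)`, `2 (a s + 1) = s^2 + 2 ≤ 16^(m-1)`. Small `m` (5 to 8, say) by `norm_num`. -/
def S_numC : Prop :=
  ∀ E m : ℕ, 2 ≤ E → 1 ≤ m → m ≤ E + 2 → 2 * kA E m ≤ Nn E (8 * m) ∧
    ∀ d, 128 * m ≤ d → Good E m (kA E m) (cA E m) (cB E m) (9 * m) d

end Pool.Agent.H55.FU
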