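import Mathlib
import Pool.Agent.H55.FU.Stm

set_option autoImplicit false

/-!
# The fifth numerical statement (project FU)

THEOREM V. For all `n ≥ 4`, all `m ≥ 1` and all numbers of general points of `ℙⁿ` with multiplicities at
most `m` the Hilbert function is the expected one in all degrees `d ≥ 1024 m (1 + m / n) ^ 2`.
-/

namespace Pool.Agent.H55.FU

open Pool.Agent.W608.PR

/-- (numV) `k = E + 1 ≥ 8`, `n = k + 1 < m`, `x = (m + k) / k ≥ 2`, `s = sz E m`, `a = aa E m`,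
`κ = a s + 1`, `k s = (m + k - 1) a`. PROOF (tested; crude estimates are enough):
`k ! s ≤ (m + k) ^ k = (k x) ^ k`, `k ! * 3 ^ k ≥ k ^ k`, `k ! * Nn E e ≥ e ^ k`,
`d ≥ 1024 m (n + m) ^ 2 / n ^ 2 ≥ 288 k x ^ 3` (`2 m ≥ m + k`, `9 n ^ 2 ≤ 16 k ^ 2` or better `n ≤ 9 k / 8`).
(1) `2 κ ≤ 4 a s`-like and `s ^ 2 ≤ (k x) ^ (2 k) / k ! ^ 2 ≤ L0 ^ k / k !` as `L0 ≥ 3 k x ^ 2`.
(2) `L + k + 1 ≤ 6 k x ^ 2`, `(k+1)! dm E L ≤ (L + k + 1) ^ (k+1)`, so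
`dm E L * s / (d ^ k / k !) ≤ 6 ^ (k+1) * 3 ^ (k+1) * x ^ 2 / 288 ^ k = 18 x ^ 2 / 16 ^ k`.
(3) `d * 3 a s * s / (d ^ k / k !) ≤ 3 * 9 ^ k * k * x ^ 2 / 288 ^ (k-1) = 864 k x ^ 2 / 32 ^ k`, with
`x ^ 2 ≤ 10 ^ k`, `k ≥ 8`. (`cA = a s`, `cB = s * Sz E m`, `(E+2) Sz = (m+E+1) s`, all other terms are
smaller.) First part of `Cndg` (at `e ≥ d - m ≥ (1 - 1/1024) d`): by `Nn_ratio` it is
`(e+1) ((m+E) (R + κ + X (e+1))) ≤ (E+1) ((e+2-m) Nn E e)`, `2 (e+2-m) ≥ e+1`, so it is enough that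
`2 x (R + κ + X (e+1)) ≤ Nn E e`; second part: `(m+E+1) R ≤ (e+2-m) Nn E (e+1)`. -/
def S_numV : Prop :=
  ∀ E m L0 : ℕ, 7 ≤ E → E + 3 ≤ m → (m + E + 1) ^ 2 ≤ (E + 1) ^ 2 * 10 ^ (E + 1) →
    3 * (m + E + 1) ^ 2 ≤ (E + 1) * L0 → (E + 1) * L0 ≤ 4 * (m + E + 1) ^ 2 →
    2 * kA E m ≤ Nn E L0 ∧
    ∀ d, 1024 * m * (E + 2 + m) ^ 2 ≤ (E + 2) ^ 2 * d →
      Good E m (kA E m) (cA E m) (cB E m) (L0 + m) d

end Pool.Agent.H55.FU
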