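import Mathlib
import Pool.Agent.H55.FE.Hvp
import Pool.Agent.H55.FU.Stm

set_option autoImplicit false

/-!
# The two sides for the generic dimension, second version
-/

namespace Pool.Agent.H55.FU

open Pool.Agent.W608.PR

theorem aa_eq_ak (E m : ℕ) : aa E m = K4H38FP.ak (Fin (E + 1 + 1)) (m - 1) := by
  rw [K4H38FP.ak_fin (by omega)]
  unfold aa
  congr 1
  omega

theorem aa_pos (E m : ℕ) : 1 ≤ aa E m := Nat.choose_pos (by omega)

theorem map_szm (E : ℕ) (s : Multiset ℕ) :
    (s.map (sz E)).sum = (s.map (K4H38FP.nc (E + 1))).sum := by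
  congr 1
  exact Multiset.map_congr rfl fun v _ => FE.sz_eq_nc E v

theorem hvpA : S_hvpA := by
  intro E m e s t hE hm hs ht h1 h2
  have S := K4H38FP.sys (n := E + 1) (by omega) e
  rw [FE.sum_sz_simple E t ht] at h2
  have h5 := FE.hv_add_le (n := E + 1) (by omega) e s t ht
  have hme : m ≤ e + 1 := by
    by_contra hcon
    have h3 : Nn E e ≤ sz E m := by
      have h4 : Nn E e = sz E (e + 1) := by
        unfold Nn sz
        congr 1
        omega
      rw [h4]
      exact sz_mono E (by omega)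
    have h4 : sz E m ≤ aa E m * sz E m := Nat.le_mul_of_pos_left _ (aa_pos E m)
    unfold kA at h1
    omega
  have h6 := S.lower (M := m) hme hm s hs
  rw [map_szm] at h1 h2
  rw [FE.Nn_eq_ch] at h1 h2
  unfold kA at h1
  rw [FE.sz_eq_nc, aa_eq_ak] at h1
  have h7 : K4H38FP.hv ℂ (Fin (E + 1 + 1)) e s + (s.map (K4H38FP.nc (E + 1))).sum =
      (E + 1 + e).choose (E + 1) := by
    apply h6
    generalize K4H38FP.ak (Fin (E + 1 + 1)) (m - 1) = a at h1
    generalize K4H38FP.nc (E + 1) m = N at h1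
    generalize (s.map (K4H38FP.nc (E + 1))).sum = q at h1
    generalize (E + 1 + e).choose (E + 1) = D at h1
    have h8 : (q : ℤ) + (a * N + 1) ≤ D := by exact_mod_cast h1
    have h9 : (0 : ℤ) ≤ N := Int.natCast_nonneg N
    have h10 : (0 : ℤ) ≤ (a : ℤ) * (a + 1) := by positivity
    nlinarith
  omega

theorem hvnA : S_hvnA := by
  intro E m e s hE hm hs h1
  have S := K4H38FP.sys (n := E + 1) (by omega) e
  obtain ⟨l, rfl, hl⟩ := FE.exists_sorted s
  have hN : 1 ≤ Nn E e := Nat.choose_pos (by omega)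
  rcases l with _ | ⟨v, l⟩
  · exfalso
    rw [Multiset.coe_nil, Multiset.map_zero, Multiset.sum_zero] at h1
    omega
  rw [List.pairwise_cons] at hl
  rcases Nat.eq_zero_or_pos v with hv | hv
  · exfalso
    subst hv
    have h2 : (((0 :: l : List ℕ) : Multiset ℕ).map (sz E)).sum = 0 := by
      rw [Multiset.sum_eq_zero_iff]
      intro x hx
      obtain ⟨y, hy, rfl⟩ := Multiset.mem_map.1 hx
      have h3 : y = 0 := by
        rcases List.mem_cons.1 (Multiset.mem_coe.1 hy) with h | h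
        · exact h
        · exact Nat.le_zero.1 (hl.1 y h)
      rw [h3, sz_zero]
    omega
  obtain ⟨k, rfl⟩ : ∃ k, v = k + 1 := ⟨v - 1, by omega⟩
  rcases Nat.lt_or_ge e (k + 1) with he | he
  · exact K4H38FP.hv_top he (l : Multiset ℕ)
  by_contra h0
  have h2 := S.upper (k := k) (by omega) (s := (l : Multiset ℕ)) (fun x hx =>
    hl.1 x (Multiset.mem_coe.1 hx)) (Nat.pos_of_ne_zero h0)
  have h3 : k + 1 ≤ m := hs (k + 1) (by simp)
  have h4 : K4H38FP.ak (Fin (E + 1 + 1)) k ≤ aa E m := by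
    rw [aa_eq_ak]
    exact S.amono (by omega)
  have h5 : K4H38FP.nc (E + 1) (k + 1) ≤ sz E m := by
    rw [FE.sz_eq_nc]
    exact S.N_mono h3
  have h6 : (K4H38FP.ak (Fin (E + 1 + 1)) k - 1) * (K4H38FP.nc (E + 1) (k + 1) - (k + 1)) ≤
      aa E m * sz E m := Nat.mul_le_mul (by omega) (by omega)
  rw [map_szm, FE.Nn_eq_ch] at h1
  unfold cA at h1
  have h7 : 0 < K4H38FP.hv ℂ (Fin (E + 1 + 1)) e ((k + 1) ::ₘ (l : Multiset ℕ)) :=
    Nat.pos_of_ne_zero h0
  have h8 : (((k + 1) ::ₘ (l : Multiset ℕ)).map (K4H38FP.nc (E + 1))).sum =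
    ((((k + 1) :: l : List ℕ) : Multiset ℕ).map (K4H38FP.nc (E + 1))).sum := rfl
  omega

end Pool.Agent.H55.FU
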