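import Pool.Agent.H55.FU.Stm
import Pool.Agent.H55.FE.TPN

set_option autoImplicit false

/-!
# Traces, for general constants
-/

namespace Pool.Agent.H55.FU

open Pool.Agent.W608.PR

theorem tNg : S_TN := by
  intro E m c hE hN ι _ u e hu h
  refine Pool.Agent.H55.FE.te_of_hv Pool.Agent.H55.FE.full hE u e (hN e _ ?_ ?_)
  · intro v hv
    obtain ⟨i, _, rfl⟩ := Multiset.mem_map.1 hv
    exact hu i
  · rw [Multiset.map_map]
    exact h

theorem tPg : S_TP := by
  classical
  intro E m κ hE hP ι _ u F e hu hu1 h1 h2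
  refine Pool.Agent.H55.FE.te_of_hv Pool.Agent.H55.FE.full hE u e ?_
  have hs : (Finset.univ.val.map u) = F.val.map u + Fᶜ.val.map u := by
    have h3 : (Finset.univ : Finset ι).val = F.val + Fᶜ.val := by
      rw [← Finset.union_compl F, ← Finset.disjUnion_eq_union F Fᶜ disjoint_compl_right]
      rfl
    rw [h3, Multiset.map_add]
  rw [hs]
  refine hP e _ _ ?_ ?_ ?_ ?_
  · intro v hv
    obtain ⟨i, _, rfl⟩ := Multiset.mem_map.1 hv
    exact hu i
  · intro v hv
    obtain ⟨i, hi, rfl⟩ := Multiset.mem_map.1 hv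
    exact hu1 i (Finset.mem_compl.1 hi)
  · rw [Multiset.map_map]
    exact h1
  · rw [Multiset.map_map, Multiset.map_map]
    refine h2.trans (le_of_eq ?_)
    exact (Finset.sum_add_sum_compl F fun i => sz E (u i)).symm

end Pool.Agent.H55.FU
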