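import Mathlib
import Pool.Agent.H55.FE.Gs
import Pool.Agent.H55.FE.TPN
import Pool.Agent.H55.FE.CNN
import Pool.Agent.H55.FE.Hvp
import Pool.Agent.H55.FE.Tl
import Pool.Agent.H55.FE.E1
import Pool.Agent.H55.FE.E2
import Pool.Agent.H55.FE.Mk
import Pool.Agent.H55.FE.Num
import Pool.Agent.H55.FU.HvA
import Pool.Agent.H55.FU.TPN
import Pool.Agent.H55.FU.CN
import Pool.Agent.H55.FU.Gg

set_option autoImplicit false

/-!
# Emptiness in all dimensions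
-/

namespace Pool.Agent.H55.FU

open Pool.Agent.W608.PR

theorem G_mono {E m D D' : ℕ} (h : D ≤ D') (hG : G ℂ E m D) : G ℂ E m D' :=
  fun n w hw d hd htot => hG n w hw d (h.trans hd) htot

theorem tP1 {E m : ℕ} (hE : 1 ≤ E) (hm : 1 ≤ m) : TPk ℂ E m (kA E m) :=
  tPg E m _ hE fun e s t hs ht h1 h2 => hvpA E m e s t hE hm hs ht h1 h2

theorem tN1 {E m : ℕ} (hE : 1 ≤ E) (hm : 1 ≤ m) : TNk ℂ E m (cA E m) :=
  tNg E m _ hE fun e s hs h => hvnA E m e s hE hm hs h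

theorem cN1 {E m : ℕ} (hE : 1 ≤ E) (hm : 1 ≤ m) : CNk ℂ E m (cB E m) :=
  cNg E m _ hE fun e s hs h => hvnA (E + 1) m e s (by omega) hm hs h

/-- The bound with the dimension. -/
theorem GE {E m D : ℕ} (hE : 1 ≤ E) (hm : 1 ≤ m)
    (hD : (E + 2) ^ (2 * (E + 2)) * m ^ (2 * E + 2) ≤ D ^ E) : G ℂ (E + 1) m D :=
  FE.gs (FE.tP FE.hvp) (FE.tN FE.hvn) (FE.cNN FE.hvn) (FE.mk (FE.e1 FE.tl) FE.e2) FE.num
    E m D hE hm hD

/-- The uniform bound. -/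
theorem GA' (hM : S_Mk) (hnum : S_numA) {E m D : ℕ} (hE : 1 ≤ E) (hm : 1 ≤ m)
    (hD : 729 * m ^ 4 ≤ D) : G ℂ E m D := by
  have h2 : m ^ 2 ≤ m ^ 4 := Nat.pow_le_pow_right hm (by norm_num)
  have h1 : 1 ≤ m ^ 4 := Nat.one_le_pow _ _ hm
  rcases Nat.lt_or_ge E 3 with hE3 | hE3
  · rcases Nat.lt_or_ge E 2 with hE2 | hE2
    · obtain rfl : E = 1 := by omega
      refine G_mono (le_trans ?_ hD) (G_base ℂ m hm)
      have h3 : m * m = m ^ 2 := (sq m).symm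
      have h4 : m ≤ m ^ 2 := by nlinarith
      omega
    · obtain rfl : E = 2 := by omega
      refine GE (E := 1) le_rfl hm ?_
      norm_num
      exact hD
  · obtain ⟨E, rfl⟩ : ∃ E', E = E' + 1 := ⟨E - 1, by omega⟩
    obtain ⟨hk, hgood⟩ := hnum E m (by omega) hm
    have h5 : 1 ≤ m ^ 2 := Nat.one_le_pow _ _ hm
    have h6 : m ≤ m ^ 2 := by nlinarith
    refine G_mono hD (ggg hM E m (kA E m) (cA E m) (cB E m) (2 * m ^ 2) (2 * m ^ 2 + m)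
      (729 * m ^ 4) (tP1 (by omega) hm) (tN1 (by omega) hm) (cN1 (by omega) hm) hm hk (by omega)
      le_rfl hgood)

/-- The linear bound in large dimensions. -/
theorem GB' (hM : S_Mk) (hnum : S_numB) {m : ℕ} (hm : 1 ≤ m) :
    ∃ E0 : ℕ, ∀ E, E0 ≤ E → G ℂ E m (4 * m) := by
  obtain ⟨E0, hE0, h⟩ := hnum m hm
  refine ⟨E0 + 1, fun E hE => ?_⟩
  obtain ⟨E, rfl⟩ : ∃ E', E = E' + 1 := ⟨E - 1, by omega⟩
  obtain ⟨hk, hgood⟩ := h E (by omega)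
  exact ggg hM E m (kA E m) (cA E m) (cB E m) (2 * m - 1) (3 * m - 1)
      (4 * m) (tP1 (by omega) hm) (tN1 (by omega) hm) (cN1 (by omega) hm) hm hk (by omega)
      (by omega) hgood

end Pool.Agent.H55.FU
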