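import Mathlib
import Pool.Agent.H55.FU.Stm

set_option autoImplicit false

/-!
# Emptiness if there are many more conditions than monomials (module E2 of project FU)
-/

namespace Pool.Agent.H55.FU

open Pool.Agent.W608.PR

theorem e2g : S_E2 := by
  classical
  intro K _ _ E m c c' L hN hC hm hL ι _ _ e
  -- small degrees
  have hsmall : ∀ (e : ℕ) (S : Finset ι) (A : ι → Finset ℕ), e ≤ L →
      (∀ i, A i ⊆ Finset.Icc 1 m) → (∀ i, i ∉ S → A i = Finset.Icc 1 (mx (A i))) →
      ∑ i ∈ S, sz E (mx (A i)) ≤ Nn E e + Yg E m c →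
      dm E e + Xg E m c c' L e ≤ ∑ i, cn E (A i) →
      CE E K (fun i => i ∈ S) (fun i => prof (A i)) e := by
    intro e S A heL hA hin hT htot
    refine hC ι S A e hA hin ?_
    have h1 : ∑ i ∈ S, cn E (A i) ≤ m * (Nn E L + Yg E m c) := by
      refine (Finset.sum_le_sum fun i _ => cn_le (card_le (hA i))).trans ?_
      rw [← Finset.mul_sum]
      exact Nat.mul_le_mul_left _ (hT.trans (Nat.add_le_add_right (Nn_mono E heL) _))
    have h2 := Finset.sum_add_sum_compl S fun i => cn E (A i)
    unfold Xg at htot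
    omega
  induction e with
  | zero =>
    intro S A hA hin hT htot
    exact hsmall 0 S A (Nat.zero_le _) hA hin hT htot
  | succ e ih =>
    intro S A hA hin hT htot
    by_cases heL : e + 1 ≤ L
    · exact hsmall (e + 1) S A heL hA hin hT htot
    push Not at heL
    obtain ⟨T, hTd⟩ : ∃ T, T = ∑ i ∈ S, sz E (mx (A i)) := ⟨_, rfl⟩
    have hYc : Yg E m c = c + sz E m := rfl
    obtain ⟨O, hO⟩ : ∃ O, O = ∑ i ∈ Sᶜ, sz E (mx (A i)) := ⟨_, rfl⟩
    rw [← hTd] at hT
    have hTO : Nn E (e + 1) + c ≤ T + O := by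
      by_contra hcon
      push Not at hcon
      have h1 : (E + 2) * ∑ i, cn E (A i) ≤ (m + E + 1) * (T + O) := by
        rw [hTd, hO, Finset.sum_add_sum_compl, Finset.mul_sum, Finset.mul_sum]
        exact Finset.sum_le_sum fun i _ => cn_ratio (hA i) (mx_le (hA i))
      have h2 : (m + E + 1) * (T + O) < (m + E + 1) * (Nn E (e + 1) + c) :=
        Nat.mul_lt_mul_of_pos_left hcon (by omega)
      have h3 : (m + E + 1) * Nn E (e + 1) ≤ (E + 2) * dm E (e + 1) := by
        rw [dm_up]
        exact Nat.mul_le_mul_right _ (by omega)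
      have h4 : (m + E + 1) * c ≤ (E + 2) * (m * c) := by
        rw [← Nat.mul_assoc]
        refine Nat.mul_le_mul_right _ ?_
        nlinarith
      have h5 : m * c ≤ Xg E m c c' L (e + 1) := by
        unfold Xg
        have h6 : m * c ≤ m * (Nn E L + Yg E m c) := Nat.mul_le_mul_left _ (by omega)
        omega
      have h7 : (E + 2) * (m * c) ≤ (E + 2) * Xg E m c c' L (e + 1) := Nat.mul_le_mul_left _ h5
      have h8 := Nat.mul_le_mul_left (E + 2) htot
      rw [Nat.mul_add _ (Nn E (e + 1)) c] at h2
      rw [Nat.mul_add] at h8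
      omega
    -- the points which are moved to the hyperplane
    obtain ⟨J1, hJ1, hJa, hJb⟩ : ∃ J1 ⊆ Sᶜ, Nn E (e + 1) + c ≤ T + ∑ i ∈ J1, sz E (mx (A i)) ∧
        T + ∑ i ∈ J1, sz E (mx (A i)) ≤ Nn E (e + 1) + Yg E m c := by
      rcases le_or_gt (T + O) (Nn E (e + 1) + Yg E m c) with h | h
      · exact ⟨Sᶜ, subset_rfl, by rw [← hO]; exact hTO, by rw [← hO]; exact h⟩
      · obtain ⟨J1, h1, h2, h3⟩ := greedy (fun i => sz E (mx (A i))) (sz E m) Sᶜ
          (fun i _ => sz_mono E (mx_le (hA i))) (Nn E (e + 1) + Yg E m c - T) (by omega)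
        exact ⟨J1, h1, by omega, by omega⟩
    obtain ⟨u, hu⟩ : ∃ u : ι → ℕ, ∀ i, u i = if i ∈ S ∪ J1 then mx (A i) else 0 :=
      ⟨_, fun _ => rfl⟩
    have hJ1S : Disjoint S J1 := by
      rw [Finset.disjoint_left]
      intro i hi hi'
      exact (Finset.mem_compl.1 (hJ1 hi')) hi
    have huS : ∀ i ∈ S, u i = mx (A i) := fun i hi => by
      rw [hu, if_pos (Finset.mem_union_left _ hi)]
    have hreg : ∀ i, u i ≠ 0 → u i = mx (A i) := by
      intro i hi
      by_cases h : i ∈ S ∪ J1
      · rw [hu, if_pos h]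
      · rw [hu, if_neg h] at hi
        exact absurd rfl hi
    have hle : ∀ i, u i ≤ mx (A i) := by
      intro i
      by_cases h : u i = 0
      · rw [h]
        exact Nat.zero_le _
      · exact (hreg i h).le
    have hsum : ∑ i, sz E (u i) = T + ∑ i ∈ J1, sz E (mx (A i)) := by
      have h1 : ∀ i ∈ Finset.univ, sz E (u i) = if i ∈ S ∪ J1 then sz E (mx (A i)) else 0 := by
        intro i _
        rw [hu]
        split_ifs
        · rfl
        · exact sz_zero E
      rw [Finset.sum_congr rfl h1, Finset.sum_ite_mem, Finset.univ_inter, Finset.sum_union hJ1S, hTd]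
    have hmem : ∀ i, u i ∈ A i ∨ u i = 0 := by
      intro i
      by_cases h : u i = 0
      · exact Or.inr h
      · left
        rw [hreg i h]
        rcases mx_mem_or (A i) with h1 | h1
        · exact h1
        · rw [hreg i h] at h
          exact absurd h1 h
    refine FE.stepT (u := u) hA hin huS (fun i _ => hle i)
      (hN ι u (e + 1) (fun i => (hle i).trans (mx_le (hA i))) ?_) ?_
    · rw [hsum]
      exact hJa
    · refine ih _ (fun i => (A i).erase (u i)) (fun i => (Finset.erase_subset _ _).trans (hA i))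
        (fun i hi => ?_) ?_ ?_
      · rw [Finset.mem_union, not_or, Finset.mem_filter, not_and, not_not] at hi
        have h0 := hi.2 (Finset.mem_univ _)
        show (A i).erase (u i) = Finset.Icc 1 (mx ((A i).erase (u i)))
        rw [h0, erase_zero (hA i)]
        exact hin i hi.1
      · have h1 := T_next (E := E) (S := S) (u := u) hA huS ∅ (fun i _ hne _ => hreg i hne)
        rw [Finset.card_empty, zero_mul, mul_zero, add_zero, hsum] at h1
        have h2 := Nn_growth (E := E) (m := m) (e := e) (by omega)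
        have h3 : (m - 1) * (T + ∑ i ∈ J1, sz E (mx (A i))) ≤
            (m - 1) * (Nn E (e + 1) + Yg E m c) := Nat.mul_le_mul_left _ hJb
        have h4 : (m - 1) * Yg E m c ≤ (m + E) * Yg E m c := Nat.mul_le_mul_right _ (by omega)
        refine le_of_mul_le_mul_left (h1.trans (h3.trans ?_)) (show 0 < m + E by omega)
        rw [Nat.mul_add, Nat.mul_add]
        exact Nat.add_le_add h2 h4
      · have h1 := tot_next (E := E) hmem
        have h2 := dm_succ E e
        have h3 : (e + 1) * Yg E m c = e * Yg E m c + Yg E m c := by ring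
        show dm E e + Xg E m c c' L e ≤ ∑ i, cn E ((A i).erase (u i))
        unfold Xg at htot ⊢
        omega

end Pool.Agent.H55.FU
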