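import Mathlib
import Pool.Graph.R_seed8.W608.PR.Final
import Pool.Graph.R_pool_sql_team_seeded_f72693b1.W608.PR.Proj

set_option autoImplicit false

/-!
# From emptiness in affine space to Hilbert functions of general fat points
-/

namespace Pool.Agent.H55.FU

open MvPolynomial
open scoped LinearAlgebra.Projectivization

/-- The homogeneous prime ideal of a point of `ℙⁿ`: all the polynomials in `x₀, …, xₙ` which
vanish on the line of `ℂⁿ⁺¹` given by the point. -/
noncomputable def primeIdeal {n : ℕ} (p : ℙ ℂ (Fin (n + 1) → ℂ)) :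
    Ideal (MvPolynomial (Fin (n + 1)) ℂ) where
  carrier := {F | ∀ w ∈ p.submodule, eval w F = 0}
  add_mem' := by
    intro F G hF hG w hw
    rw [map_add, hF w hw, hG w hw, add_zero]
  zero_mem' := by
    intro w _
    exact map_zero _
  smul_mem' := by
    intro c F hF w hw
    rw [smul_eq_mul, map_mul, hF w hw, mul_zero]

/-- The ideal of the polynomials vanishing to order at least `w i` at the point `P i` for every `i`: the
intersection of the powers `𝔭_i ^ (w i)`. For `w i = m` this is the `m`-th symbolic power of the ideal of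
the points. -/
noncomputable def fatIdeal {n r : ℕ} (w : Fin r → ℕ) (P : Fin r → ℙ ℂ (Fin (n + 1) → ℂ)) :
    Ideal (MvPolynomial (Fin (n + 1)) ℂ) :=
  ⨅ i, primeIdeal (P i) ^ w i

/-- The Hilbert function `dim R_d - dim J_d` of `R / J`. -/
noncomputable def hilbert {n : ℕ} (J : Ideal (MvPolynomial (Fin (n + 1)) ℂ)) (d : ℕ) : ℤ :=
  (Module.finrank ℂ (homogeneousSubmodule (Fin (n + 1)) ℂ d) : ℤ) -
    Module.finrank ℂ (homogeneousSubmodule (Fin (n + 1)) ℂ d ⊓ Submodule.restrictScalars ℂ J :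
      Submodule ℂ (MvPolynomial (Fin (n + 1)) ℂ))

/-- Zariski open subsets of `(ℙⁿ)^r`: those which are defined, in terms of arbitrary homogeneous
coordinates of the points, by the condition that some polynomial of a given set does not vanish. -/
def IsZariskiOpen {n r : ℕ} (U : Set (Fin r → ℙ ℂ (Fin (n + 1) → ℂ))) : Prop :=
  ∃ S : Set (MvPolynomial (Fin r × Fin (n + 1)) ℂ),
    ∀ (v : Fin r → Fin (n + 1) → ℂ) (hv : ∀ i, v i ≠ 0),
      ((fun i => Projectivization.mk ℂ (v i) (hv i)) ∈ U ↔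
        ∃ f ∈ S, eval (fun x : Fin r × Fin (n + 1) => v x.1 x.2) f ≠ 0)

lemma primeIdeal_mk {n : ℕ} (v : Fin (n + 1) → ℂ) (hv : v ≠ 0) (h0 : v 0 ≠ 0) :
    primeIdeal (Projectivization.mk ℂ v hv) = Ideal.span (Set.range fun j : Fin n =>
        (X j.succ - C (v j.succ / v 0) * X 0 : MvPolynomial (Fin (n + 1)) ℂ)) := by
  ext F
  rw [W608.PR.mem_span_iff v h0]
  change (∀ w ∈ (Projectivization.mk ℂ v hv).submodule, eval w F = 0) ↔
    ∀ t : ℂ, eval (t • v) F = 0
  rw [Projectivization.submodule_mk]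
  constructor
  · intro h t
    exact h _ (Submodule.smul_mem _ _ (Submodule.mem_span_singleton_self v))
  · intro h w hw
    obtain ⟨t, rfl⟩ := Submodule.mem_span_singleton.1 hw
    exact h t

lemma eval_scale {n r : ℕ} (t : Fin r → ℂ) (v : Fin r → Fin (n + 1) → ℂ)
    (G : MvPolynomial (Fin r × Fin (n + 1)) ℂ) :
    eval (fun x : Fin r × Fin (n + 1) => v x.1 x.2)
      (aeval (fun x : Fin r × Fin (n + 1) => C (t x.1) * X x) G)
      = eval (fun x : Fin r × Fin (n + 1) => (t x.1 • v x.1) x.2) G := by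
  induction G using MvPolynomial.induction_on with
  | C a => simp [algebraMap_eq]
  | add p q hp hq => rw [map_add, map_add, hp, hq, map_add]
  | mul_X p i hp =>
    rw [map_mul, map_mul, hp, map_mul, aeval_X, map_mul, eval_C, eval_X, eval_X]
    rfl

/-- The passage from emptiness in affine space to the Hilbert function. -/
theorem assembly {E m D r : ℕ} (w : Fin r → ℕ) (hm : 1 ≤ m) (hw : ∀ i, w i ≤ m)
    (hG : W608.PR.G ℂ E m D) :
    ∃ U : Set (Fin r → ℙ ℂ (Fin (E + 1 + 1) → ℂ)), IsZariskiOpen U ∧ U.Nonempty ∧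
      ∀ P ∈ U, ∀ d : ℕ,
        (D ≤ d ∨ (E + 1 + D).choose (E + 1) ≤ ∑ i, (E + 1 + w i - 1).choose (E + 1)) →
        hilbert (fatIdeal w P) d =
          min ((E + 1 + d).choose (E + 1) : ℤ) (∑ i, ((E + 1 + w i - 1).choose (E + 1) : ℤ)) := by
  obtain ⟨F, hF, hF'⟩ := W608.PR.all_degrees hm hG w hw
  obtain ⟨N, Φ0, hΦ0⟩ := W608.PR.exists_homog F
  obtain ⟨Φ, hΦdef⟩ : ∃ Φ, Φ = Φ0 * ∏ k : Fin r, X (k, (0 : Fin (E + 1 + 1))) := ⟨_, rfl⟩
  have hΦ1 : ∀ v : Fin r → Fin (E + 1 + 1) → ℂ,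
      eval (fun x : Fin r × Fin (E + 1 + 1) => v x.1 x.2) Φ ≠ 0 →
      (∀ i, v i 0 ≠ 0) ∧
        eval (fun x : Fin r × Fin (E + 1) => v x.1 x.2.succ / v x.1 0) F ≠ 0 := by
    intro v hv
    rw [hΦdef, map_mul, map_prod] at hv
    have h1 : ∀ i, v i 0 ≠ 0 := by
      intro i
      have h2 := Finset.prod_ne_zero_iff.1 (right_ne_zero_of_mul hv) i (Finset.mem_univ i)
      rwa [eval_X] at h2
    refine ⟨h1, ?_⟩
    have h2 := left_ne_zero_of_mul hv
    rw [hΦ0 v h1] at h2
    exact right_ne_zero_of_mul h2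
  obtain ⟨Q, hQ⟩ : ∃ Q : Fin r × Fin (E + 1) → ℂ, eval Q F ≠ 0 := by
    by_contra hcon
    push Not at hcon
    exact hF (MvPolynomial.funext fun w => by rw [hcon w, map_zero])
  refine ⟨{P | ∃ (v : Fin r → Fin (E + 1 + 1) → ℂ) (hv : ∀ i, v i ≠ 0),
    (∀ i, Projectivization.mk ℂ (v i) (hv i) = P i) ∧
      eval (fun x : Fin r × Fin (E + 1 + 1) => v x.1 x.2) Φ ≠ 0}, ?_, ?_, ?_⟩
  · -- openness
    refine ⟨{f | ∃ t : Fin r → ℂ, (∀ i, t i ≠ 0) ∧
      f = aeval (fun x : Fin r × Fin (E + 1 + 1) => C (t x.1) * X x) Φ}, ?_⟩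
    intro v hv
    constructor
    · rintro ⟨v', hv', h1, h2⟩
      have h3 : ∀ i, ∃ t : ℂ, t • v i = v' i := fun i =>
        (Projectivization.mk_eq_mk_iff' ℂ _ _ _ _).1 (h1 i)
      choose t ht using h3
      have ht0 : ∀ i, t i ≠ 0 := by
        intro i h0
        apply hv' i
        rw [← ht i, h0, zero_smul]
      refine ⟨_, ⟨t, ht0, rfl⟩, ?_⟩
      rw [eval_scale]
      simpa only [ht] using h2
    · rintro ⟨f, ⟨t, ht0, rfl⟩, h2⟩
      rw [eval_scale] at h2
      refine ⟨fun i => t i • v i, fun i => smul_ne_zero (ht0 i) (hv i), fun i => ?_, h2⟩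
      rw [Projectivization.mk_eq_mk_iff']
      exact ⟨t i, rfl⟩
  · -- nonempty
    let v : Fin r → Fin (E + 1 + 1) → ℂ := fun i => Fin.cons 1 (fun j => Q (i, j))
    have hv0 : ∀ i, v i 0 = 1 := fun i => rfl
    have hv : ∀ i, v i ≠ 0 := fun i h0 => one_ne_zero ((hv0 i).symm.trans (congrFun h0 0))
    refine ⟨fun i => Projectivization.mk ℂ (v i) (hv i), v, hv, fun i => rfl, ?_⟩
    rw [hΦdef, map_mul, map_prod, hΦ0 v fun i => by rw [hv0]; exact one_ne_zero]
    simp only [eval_X, hv0, Finset.prod_const_one, one_pow, one_mul, mul_one, div_one]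
    exact hQ
  · -- the value
    rintro P ⟨v, hv, h1, h2⟩ d hd
    obtain ⟨h3, h4⟩ := hΦ1 v h2
    have h5 : fatIdeal w P = ⨅ i, (H932R5.hI (K := ℂ) fun j : Fin (E + 1) =>
        v i j.succ / v i 0) ^ w i := by
      unfold fatIdeal
      refine iInf_congr fun i => ?_
      rw [← h1 i, primeIdeal_mk _ _ (h3 i)]
      rfl
    have e0 : ∀ i, E + 1 + w i - 1 = w i + E := fun i => by omega
    simp only [e0] at hd ⊢
    rw [show E + 1 + D = D + E + 1 by ring] at hd
    obtain ⟨h6, h7⟩ := hF' (fun i j => v i j.succ / v i 0) h4 d hd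
    unfold hilbert
    rw [h5]
    change (Module.finrank ℂ (homogeneousSubmodule (Fin (E + 2)) ℂ d) : ℤ) -
      Module.finrank ℂ ↥(H932R5.Vd (K := ℂ) (E := E) d w
        fun i j => v i j.succ / v i 0) = _
    rw [W608.PR.finrank_homog, show E + 1 + d = d + E + 1 by ring]
    rcases Nat.le_total ((d + E + 1).choose (E + 1)) (∑ i, (w i + E).choose (E + 1)) with h | h
    · rw [(h6 h).finrank, Nat.cast_zero, sub_zero, min_eq_left]
      exact_mod_cast h
    · have h8 := (h7 h).finrank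
      rw [min_eq_right (by exact_mod_cast h), ← h8]
      push_cast
      ring

end Pool.Agent.H55.FU
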