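import Mathlib
import Pool.Agent.H55.FU.Stm

set_option autoImplicit false

/-!
# Emptiness if there are many simple points in general position

As `Pool/Agent/H55/FE/E1.lean`, with a general constant `κ`.
-/

namespace Pool.Agent.H55.FU

open Pool.Agent.W608.PR

theorem e1g (h : S_TL) : S_E1 := by
  classical
  intro K _ _ E m κ L0 L hP hm hKL hmL hL1 ι _ _ e
  induction e with
  | zero =>
    intro S A B hA hin hB hT htot hq
    refine CE.simple (B := B) (fun i hi => ⟨(hB i hi).1, ?_⟩) ?_
    · rw [(hB i hi).2, prof_one_zero]
    · have h1 := dm_mono E (Nat.zero_le L)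
      unfold Qg at hq
      unfold dm at h1 hq
      omega
  | succ e ih =>
    intro S A B hA hin hB hT htot hq
    by_cases heL : e + 1 ≤ L
    · refine CE.simple (B := B) (fun i hi => ⟨(hB i hi).1, ?_⟩) ?_
      · rw [(hB i hi).2, prof_one_zero]
      · have h1 := dm_mono E heL
        unfold Qg at hq
        unfold dm at h1 hq
        omega
    push Not at heL
    obtain ⟨T, hTd⟩ : ∃ T, T = ∑ i ∈ S, sz E (mx (A i)) := ⟨_, rfl⟩
    obtain ⟨J, hJ⟩ : ∃ J : Finset ι, J = (S ∪ B)ᶜ := ⟨_, rfl⟩
    have hJm : ∀ i, i ∈ J ↔ i ∉ S ∧ i ∉ B := by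
      intro i
      rw [hJ, Finset.mem_compl, Finset.mem_union, not_or]
    rw [← hTd] at hT
    rcases le_or_gt (∑ i ∈ J, sz E (mx (A i))) (Nn E (e + 1) - κ - T) with hc | hc
    · -- all the other points are moved
      have hBc : Bᶜ = S ∪ J := by
        ext i
        rw [Finset.mem_compl, Finset.mem_union, hJm]
        constructor
        · intro h
          by_cases hS : i ∈ S
          · exact Or.inl hS
          · exact Or.inr ⟨hS, h⟩
        · rintro (h | h) h'
          · exact (hB i h').1 h
          · exact h.2 h'
      have hdis : Disjoint S J := by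
        rw [Finset.disjoint_left]
        intro i hi hi'
        exact ((hJm i).1 hi').1 hi
      have h1 := h K E m κ L0 hP hm hKL hmL ι m (e + 1) A B hA (fun i hi => (hB i hi).2)
        (fun i _ => card_le (hA i))
        (by
          rw [hBc, Finset.sum_union hdis, ← hTd]
          omega) (by omega) htot
      exact h1.mono (fun i hi => Finset.mem_compl.2 fun h => (hB i h).1 hi) fun i s => le_rfl
    · obtain ⟨J1, hJ1, hJ1a, hJ1b⟩ := greedy (fun i => sz E (mx (A i))) (sz E m) J
        (fun i _ => sz_mono E (mx_le (hA i))) (Nn E (e + 1) - κ - T) hc.le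
      have hq1 : κ + sz E m ≤ B.card := by
        have h1 : (e + 1) * Rg E m κ = e * Rg E m κ + Rg E m κ := by ring
        unfold Qg at hq
        have h2 : Rg E m κ = κ + sz E m := rfl
        omega
      obtain ⟨B1, hB1, hB1c⟩ := Finset.exists_subset_card_eq
        (show Nn E (e + 1) - T - ∑ i ∈ J1, sz E (mx (A i)) ≤ B.card by omega)
      obtain ⟨u, hu⟩ : ∃ u : ι → ℕ, ∀ i, u i = if i ∈ S ∪ J1 then mx (A i) else
        (if i ∈ B1 then 1 else 0) := ⟨_, fun _ => rfl⟩
      have hJ1S : Disjoint S J1 := by
        rw [Finset.disjoint_left]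
        intro i hi hi'
        exact ((hJm i).1 (hJ1 hi')).1 hi
      have hBn : ∀ i ∈ B, i ∉ S ∪ J1 := by
        intro i hi h
        rcases Finset.mem_union.1 h with h | h
        · exact (hB i hi).1 h
        · exact ((hJm i).1 (hJ1 h)).2 hi
      have huF : ∀ i ∈ S ∪ J1, u i = mx (A i) := fun i hi => by
        rw [hu, if_pos hi]
      have huS : ∀ i ∈ S, u i = mx (A i) := fun i hi => huF i (Finset.mem_union_left _ hi)
      have huJ : ∀ i ∈ J1, u i = mx (A i) := fun i hi => huF i (Finset.mem_union_right _ hi)
      have huB1 : ∀ i ∈ B1, u i = 1 := fun i hi => by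
        rw [hu, if_neg (hBn i (hB1 hi)), if_pos hi]
      have hu0 : ∀ i, i ∉ S → i ∉ J1 → i ∉ B1 → u i = 0 := fun i h1 h2 h3 => by
        rw [hu, if_neg (by rw [Finset.mem_union, not_or]; exact ⟨h1, h2⟩), if_neg h3]
      have hreg : ∀ i, u i ≠ 0 → u i = mx (A i) := by
        intro i hi
        by_cases h1 : i ∈ S
        · exact huS i h1
        by_cases h2 : i ∈ J1
        · exact huJ i h2
        by_cases h3 : i ∈ B1
        · rw [huB1 i h3, (hB i (hB1 h3)).2, mx_one]
        · exact absurd (hu0 i h1 h2 h3) hi
      have hFsum : ∑ i ∈ S ∪ J1, sz E (u i) = T + ∑ i ∈ J1, sz E (mx (A i)) := by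
        rw [Finset.sum_congr rfl fun i hi => by rw [huF i hi], Finset.sum_union hJ1S, ← hTd]
      have hsum : ∑ i, sz E (u i) = Nn E (e + 1) := by
        have h1 : ∀ i ∈ Finset.univ, sz E (u i) =
            (if i ∈ S ∪ J1 then sz E (mx (A i)) else 0) + (if i ∈ B1 then 1 else 0) := by
          intro i _
          by_cases h : i ∈ S ∪ J1
          · have h2 : i ∉ B1 := fun h3 => hBn i (hB1 h3) h
            rw [hu, if_pos h, if_pos h, if_neg h2, add_zero]
          · rw [hu, if_neg h, if_neg h, zero_add]
            split_ifs
            · exact sz_one E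
            · exact sz_zero E
        rw [Finset.sum_congr rfl h1, Finset.sum_add_distrib, Finset.sum_ite_mem,
          Finset.sum_ite_mem, Finset.univ_inter, Finset.univ_inter, Finset.sum_union hJ1S,
          Finset.sum_const, smul_eq_mul, mul_one, hB1c, ← hTd]
        have h9 : (fun i => sz E (mx (A i))) = fun i => sz E (mx (A i)) := rfl
        omega
      have hmem : ∀ i, u i ∈ A i ∨ u i = 0 := by
        intro i
        by_cases h : u i = 0
        · exact Or.inr h
        · left
          rw [hreg i h]
          rcases mx_mem_or (A i) with h1 | h1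
          · exact h1
          · rw [hreg i h] at h
            exact absurd h1 h
      have hum : ∀ i, u i ≤ mx (A i) := fun i => by
        by_cases h : u i = 0
        · rw [h]
          exact Nat.zero_le _
        · exact le_of_eq (hreg i h)
      have hKe : 2 * κ ≤ Nn E e := hKL.trans (Nn_mono E (by omega))
      refine Pool.Agent.H55.FE.stepT (m := m) (u := u) hA hin huS (fun i _ => hum i) ?_ ?_
      · refine hP ι u (S ∪ J1) (e + 1) (fun i => (hum i).trans (mx_le (hA i))) (fun i hi => ?_)
          ?_ (le_of_eq hsum.symm)
        · rw [hu, if_neg hi]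
          split_ifs <;> omega
        · rw [hFsum]
          omega
      · refine ih _ (fun i => (A i).erase (u i)) (B \ B1)
          (fun i => (Finset.erase_subset _ _).trans (hA i)) (fun i hi => ?_) (fun i hi => ?_) ?_
          ?_ ?_
        · rw [Finset.mem_union, not_or, Finset.mem_filter, not_and, not_not] at hi
          have h0 := hi.2 (Finset.mem_univ _)
          show (A i).erase (u i) = Finset.Icc 1 (mx ((A i).erase (u i)))
          rw [h0, erase_zero (hA i)]
          exact hin i hi.1
        · rw [Finset.mem_sdiff] at hi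
          have h1 := hBn i hi.1
          rw [Finset.mem_union, not_or] at h1
          have h0 := hu0 i h1.1 h1.2 hi.2
          refine ⟨?_, ?_⟩
          · rw [Finset.mem_union, not_or, Finset.mem_filter, not_and, not_not]
            exact ⟨h1.1, fun _ => h0⟩
          · show (A i).erase (u i) = {1}
            rw [h0, erase_zero (hA i), (hB i hi.1).2]
        · have h1 := Pool.Agent.H55.FE.T_nextF (E := E) (S := S) (F := S ∪ J1) (u := u) hA
            Finset.subset_union_left huF (fun i hi hne => by
              have h2 : i ∈ B1 := by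
                by_contra h3
                rw [Finset.mem_union, not_or] at hi
                exact hne (hu0 i hi.1 hi.2 h3)
              exact ⟨(hB i (hB1 h2)).2, huB1 i h2⟩)
          refine roomk h1 ?_ hm hKe (by omega)
          rw [hFsum]
          omega
        · have h1 := tot_next (E := E) hmem
          have h2 := dm_succ E e
          show dm E e ≤ ∑ i, cn E ((A i).erase (u i))
          omega
        · have h1 : (B \ B1).card = B.card - B1.card := Finset.card_sdiff_of_subset hB1
          have h2 : (e + 1) * Rg E m κ = e * Rg E m κ + Rg E m κ := by ring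
          have h3 : Rg E m κ = κ + sz E m := rfl
          unfold Qg at hq ⊢
          omega

end Pool.Agent.H55.FU
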