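import Mathlib
import Pool.Agent.H55.FU.Fin
import Pool.Agent.H55.FU.Tl
import Pool.Agent.H55.FU.E1
import Pool.Agent.H55.FU.E2
import Pool.Agent.H55.FU.Mk
import Pool.Agent.H1.FU.NumB

set_option autoImplicit false

/-!
# The linear bound in large dimensions
-/

namespace Pool.Agent.H55.FU

open Pool.Agent.W608.PR

theorem mkk : S_Mk := mkg (e1g tlg) e2g

/-- The linear bound in large dimensions. -/
theorem GB {m : ℕ} (hm : 1 ≤ m) : ∃ E0 : ℕ, ∀ E, E0 ≤ E → G ℂ E m (4 * m) :=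
  GB' mkk Pool.Agent.H1.FU.numB hm

end Pool.Agent.H55.FU
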