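import Mathlib
import Pool.Agent.H55.FU.GB
import Pool.Agent.H10.FU.NumA

set_option autoImplicit false

/-!
# The uniform bound in all dimensions
-/

namespace Pool.Agent.H55.FU

open Pool.Agent.W608.PR

/-- The uniform bound in all dimensions. -/
theorem GA {E m D : ℕ} (hE : 1 ≤ E) (hm : 1 ≤ m) (hD : 729 * m ^ 4 ≤ D) : G ℂ E m D :=
  GA' mkk Pool.Agent.H10.FU.numA hE hm hD

end Pool.Agent.H55.FU
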