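import Mathlib
import Pool.Agent.H55.FU.GB
import Pool.Agent.H1.FU.NumC

set_option autoImplicit false

/-!
# The linear bound for multiplicities at most the dimension
-/

namespace Pool.Agent.H55.FU

open Pool.Agent.W608.PR

/-- The linear bound for multiplicities at most the dimension `n = E + 1`. -/
theorem GC {E m D : ℕ} (hE : 3 ≤ E) (hm : 1 ≤ m) (hmE : m ≤ E + 1) (hD : 128 * m ≤ D) :
    G ℂ E m D := by
  obtain ⟨E, rfl⟩ : ∃ E', E = E' + 1 := ⟨E - 1, by omega⟩
  obtain ⟨hk, hgood⟩ := Pool.Agent.H1.FU.numC E m (by omega) hm (by omega)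
  refine G_mono hD (ggg mkk E m (kA E m) (cA E m) (cB E m) (8 * m) (9 * m)
      (128 * m) (tP1 (by omega) hm) (tN1 (by omega) hm) (cN1 (by omega) hm) hm hk (by omega)
      (by omega) hgood)

end Pool.Agent.H55.FU
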