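import Mathlib
import Pool.Agent.H55.FE.Defs
import Pool.Agent.H55.FU.Stm

set_option autoImplicit false

/-!
# The fourth numerical statement (project FU)

THEOREM U. For all `n ≥ 3`, all `m ≥ 1` and all numbers of general points of `ℙⁿ` with multiplicities at
most `m` the Hilbert function is the expected one in all degrees `d` with
`64 ^ (n - 2) * m ^ (2 n - 2) ≤ d ^ (n - 2)`, i.e. `d ≥ 64 m ^ (2 + 2 / (n - 2))`.
-/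

namespace Pool.Agent.H55.FU

open Pool.Agent.W608.PR

/-- (numU) `κ = FE.Kc E m = (m - 1) ^ k + (k - 2) * sz + 1`, `k = E + 1 ≤ m - 1` or `k = 2`, `L0 = 2 k m`,
`L = L0 + m`, `s = sz E m`. PROOF (tested; crude estimates are enough). For `k ≤ m`:
`k ! * s ≤ (2 m) ^ k`, `(k-1)! * aa ≤ (2 m) ^ (k-1)`, `Kc ≤ 5 m ^ k`, `Rg ≤ 7 m ^ k`,
`(k+1)! * dm E L ≤ ((2 k + 2) m) ^ (k+1)`, `aa (E+1) m = s`, `(k+1)! * Sz E m ≤ (2 m) ^ (k+1)`,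
`k ! * Nn E e ≥ e ^ k`, `(k+1)! * dm E d ≥ d ^ (k+1)`, and `d ^ k ≥ d * 64 ^ (k-1) * m ^ (2 k)`, `d ≥ 64 m ^ 2`.
So `k ! * d * Rg * s ≤ 7 * 2 ^ k * m ^ (2 k) * d ≤ d ^ k * (7 * 2 ^ k / 64 ^ (k-1))` (`28 / 64` for `k = 2`,
tiny for `k ≥ 3`), and the other terms are much smaller. First part of `Cndg` (at `e ≥ d - m`): by
`Nn_ratio` it is `(e+1) ((m+E) (R + κ + X (e+1))) ≤ (E+1) ((e+2-m) Nn E e)`; `2 (e+2-m) ≥ e+1`,
`m + E ≤ 2 m`, `2 e ^ k ≥ d ^ k` as `d ≥ 64 m ^ 2`, `k ≤ m`. (Model: `Pool/Agent/H55/FE/Num.lean`, the same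
with `(E+2) ^ (2 (E+2))` instead of `64 ^ E` and other constants `c`, `c'`.) -/
def S_numU : Prop :=
  ∀ E m : ℕ, 1 ≤ E → 2 ≤ m → (E = 1 ∨ E + 3 ≤ m) →
    2 * FE.Kc E m ≤ Nn E (2 * (E + 1) * m) ∧
    ∀ d, 64 ^ E * m ^ (2 * E + 2) ≤ d ^ E →
      Good E m (FE.Kc E m) (cA E m) (cB E m) (2 * (E + 1) * m + m) d

end Pool.Agent.H55.FU
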