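import Mathlib
import Pool.Agent.H55.FU.GC
import Pool.Agent.H55.FU.StmU
import Pool.Agent.H55.FV.Cst

set_option autoImplicit false

/-!
# The uniform bound in all dimensions, second version
-/

namespace Pool.Agent.H55.FU

open Pool.Agent.W608.PR

/-- Simple points. -/
theorem G_one (E D : ℕ) : G ℂ (E + 1) 1 D := by
  classical
  intro n w hw d _ htot
  have htot' : dm E d ≤ ∑ i, Sz E (w i) := htot
  refine full_of_CE ?_
  refine CE.simple (B := Finset.univ.filter (fun i => w i = 1)) (fun i hi => ⟨fun h => h, ?_⟩) ?_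
  · rw [(Finset.mem_filter.1 hi).2, Finset.Icc_self, prof_one_zero]
  · have h1 : ∀ i ∈ Finset.univ, Sz E (w i) = if w i = 1 then 1 else 0 := by
      intro i _
      split_ifs with h
      · rw [h]
        unfold Sz
        rw [show 1 + E + 1 = E + 2 by ring, Nat.choose_self]
      · have h2 := hw i
        have h3 : w i = 0 := by omega
        rw [h3, Sz_zero]
    rw [Finset.sum_congr rfl h1, ← Finset.card_filter] at htot'
    exact htot'

theorem GU' (hnum : S_numU) {E m D : ℕ} (hE : 1 ≤ E) (hm : 1 ≤ m)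
    (hD : 64 ^ E * m ^ (2 * E + 2) ≤ D ^ E) : G ℂ (E + 1) m D := by
  rcases Nat.lt_or_ge m 2 with hm2 | hm2
  · obtain rfl : m = 1 := by omega
    exact G_one E D
  by_cases hr : E = 1 ∨ E + 3 ≤ m
  · obtain ⟨hk, hgood⟩ := hnum E m hE hm2 hr
    have h1 : m ≤ 2 * (E + 1) * m := Nat.le_mul_of_pos_left m (by omega)
    have h2 : 2 * m ≤ 2 * (E + 1) * m := Nat.mul_le_mul_right m (by omega)
    exact ggg mkk E m (FE.Kc E m) (cA E m) (cB E m) (2 * (E + 1) * m) (2 * (E + 1) * m + m) D
      (FV.tPK hE) (tN1 hE hm) (cN1 hE hm) hm hk (by omega) le_rfl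
      (fun d hd => hgood d (hD.trans (Nat.pow_le_pow_left hd E)))
  · rw [not_or, not_le] at hr
    refine GC (by omega) hm (by omega) ?_
    by_contra hcon
    push Not at hcon
    have h1 : D < 64 * m ^ 2 := by nlinarith
    have h2 : D ^ E < (64 * m ^ 2) ^ E := Nat.pow_lt_pow_left h1 (by omega)
    have h3 : (64 * m ^ 2) ^ E ≤ 64 ^ E * m ^ (2 * E + 2) := by
      rw [mul_pow, ← pow_mul]
      exact Nat.mul_le_mul_left _ (Nat.pow_le_pow_right hm (by omega))
    omega

end Pool.Agent.H55.FU
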