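import Mathlib
import Pool.Agent.H55.FU.GU
import Pool.Agent.H36.FU.NumUA

set_option autoImplicit false

/-!
# The uniform bound in all dimensions, second version
-/

namespace Pool.Agent.H55.FU

open Pool.Agent.W608.PR

/-- The uniform bound in all dimensions `n = E + 2 ≥ 3`. -/
theorem GU {E m D : ℕ} (hE : 1 ≤ E) (hm : 1 ≤ m) (hD : 64 ^ E * m ^ (2 * E + 2) ≤ D ^ E) :
    G ℂ (E + 1) m D :=
  GU' Pool.Agent.H36.FU.numU hE hm hD

end Pool.Agent.H55.FU
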