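import Mathlib
import Pool.Agent.H55.FU.GUf
import Pool.Agent.H55.FU.StmV

set_option autoImplicit false

/-!
# A bound which is linear for multiplicities of the order of the dimension
-/

namespace Pool.Agent.H55.FU

open Pool.Agent.W608.PR

theorem red_U {E m n D : ℕ} (hn : 0 < n) (h : n ^ (2 * E) * m ^ (E + 2) ≤ 16 ^ E * (n + m) ^ (2 * E))
    (hD : 1024 * m * (n + m) ^ 2 ≤ n ^ 2 * D) : 64 ^ E * m ^ (2 * E + 2) ≤ D ^ E := by
  have h1 : (1024 * m * (n + m) ^ 2) ^ E ≤ (n ^ 2 * D) ^ E := Nat.pow_le_pow_left hD E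
  have h2 : n ^ (2 * E) * (64 ^ E * m ^ (2 * E + 2)) ≤ n ^ (2 * E) * D ^ E := by
    calc n ^ (2 * E) * (64 ^ E * m ^ (2 * E + 2))
        = 64 ^ E * m ^ E * (n ^ (2 * E) * m ^ (E + 2)) := by
          rw [show 2 * E + 2 = E + (E + 2) by ring, pow_add]
          ring
      _ ≤ 64 ^ E * m ^ E * (16 ^ E * (n + m) ^ (2 * E)) := Nat.mul_le_mul_left _ h
      _ = (1024 * m * (n + m) ^ 2) ^ E := by
          rw [mul_pow, mul_pow, ← pow_mul, show (1024 : ℕ) = 64 * 16 by norm_num, mul_pow]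
          ring
      _ ≤ (n ^ 2 * D) ^ E := h1
      _ = n ^ (2 * E) * D ^ E := by rw [mul_pow, ← pow_mul]
  exact le_of_mul_le_mul_left h2 (pow_pos hn _)

theorem small_n {E m : ℕ} (hE : 2 ≤ E) (h : (E + 2) ^ (E + 2) ≤ 16 ^ E) :
    (E + 2) ^ (2 * E) * m ^ (E + 2) ≤ 16 ^ E * (E + 2 + m) ^ (2 * E) := by
  have h1 : (E + 2) ^ (2 * E) = (E + 2) ^ (E + 2) * (E + 2) ^ (E - 2) := by
    rw [← pow_add]
    congr 1
    omega
  have h2 : (E + 2 + m) ^ (2 * E) = (E + 2 + m) ^ (E - 2) * (E + 2 + m) ^ (E + 2) := by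
    rw [← pow_add]
    congr 1
    omega
  rw [h1, h2]
  have h3 : (E + 2) ^ (E - 2) ≤ (E + 2 + m) ^ (E - 2) := Nat.pow_le_pow_left (by omega) _
  have h4 : m ^ (E + 2) ≤ (E + 2 + m) ^ (E + 2) := Nat.pow_le_pow_left (by omega) _
  calc (E + 2) ^ (E + 2) * (E + 2) ^ (E - 2) * m ^ (E + 2)
      ≤ 16 ^ E * (E + 2 + m) ^ (E - 2) * (E + 2 + m) ^ (E + 2) :=
        Nat.mul_le_mul (Nat.mul_le_mul h h3) h4
    _ = 16 ^ E * ((E + 2 + m) ^ (E - 2) * (E + 2 + m) ^ (E + 2)) := by ring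

theorem four_le {E : ℕ} (hE : 2 ≤ E) : (E + 2) ^ 4 ≤ 256 * 10 ^ (E - 2) := by
  induction E, hE using Nat.le_induction with
  | base => norm_num
  | succ E hE ih =>
    have h1 : (E + 1 + 2) ^ 4 ≤ 10 * (E + 2) ^ 4 := by
      have h2 : 4 * (E + 1 + 2) ≤ 5 * (E + 2) := by omega
      have h3 : (4 * (E + 1 + 2)) ^ 4 ≤ (5 * (E + 2)) ^ 4 := Nat.pow_le_pow_left h2 4
      rw [mul_pow, mul_pow] at h3
      norm_num at h3
      omega
    have h2 : 10 ^ (E + 1 - 2) = 10 * 10 ^ (E - 2) := by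
      rw [show E + 1 - 2 = (E - 2) + 1 by omega, pow_succ]
      ring
    rw [h2]
    omega

theorem large_m {E m : ℕ} (hE : 7 ≤ E) (hm : E + 3 ≤ m)
    (h : (E + 1) ^ 2 * 10 ^ (E + 1) < (m + E + 1) ^ 2) :
    (E + 2) ^ (2 * E) * m ^ (E + 2) ≤ 16 ^ E * (E + 2 + m) ^ (2 * E) := by
  have h1 : 10 ^ (E + 1) ≤ m ^ 2 := by
    have h2 : (m + E + 1) ^ 2 ≤ 4 * m ^ 2 := by nlinarith
    have h3 : 4 * 10 ^ (E + 1) ≤ (E + 1) ^ 2 * 10 ^ (E + 1) :=
      Nat.mul_le_mul_right _ (by nlinarith)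
    omega
  have h2 : (E + 2) ^ (2 * E) ≤ 16 ^ E * m ^ (E - 2) := by
    have h3 : ((E + 2) ^ (2 * E)) ^ 2 ≤ (16 ^ E * m ^ (E - 2)) ^ 2 := by
      calc ((E + 2) ^ (2 * E)) ^ 2 = ((E + 2) ^ 4) ^ E := by
            rw [← pow_mul, ← pow_mul]
            congr 1
            ring
        _ ≤ (256 * 10 ^ (E - 2)) ^ E := Nat.pow_le_pow_left (four_le (by omega)) E
        _ = 256 ^ E * 10 ^ ((E - 2) * E) := by rw [mul_pow, ← pow_mul]
        _ ≤ 256 ^ E * 10 ^ ((E + 1) * (E - 2)) := by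
            refine Nat.mul_le_mul_left _ (Nat.pow_le_pow_right (by norm_num) ?_)
            rw [mul_comm]
            exact Nat.mul_le_mul_right _ (by omega)
        _ = 256 ^ E * (10 ^ (E + 1)) ^ (E - 2) := by rw [← pow_mul]
        _ ≤ 256 ^ E * (m ^ 2) ^ (E - 2) := Nat.mul_le_mul_left _ (Nat.pow_le_pow_left h1 _)
        _ = (16 ^ E * m ^ (E - 2)) ^ 2 := by
            rw [mul_pow, ← pow_mul, ← pow_mul, mul_comm E 2, pow_mul 16 2 E,
              ← pow_mul m (E - 2) 2, mul_comm (E - 2) 2]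
            norm_num
    exact (Nat.pow_le_pow_iff_left (by norm_num)).1 h3
  have h4 : (E + 2 + m) ^ (2 * E) = (E + 2 + m) ^ (E - 2) * (E + 2 + m) ^ (E + 2) := by
    rw [← pow_add]
    congr 1
    omega
  rw [h4]
  have h5 : m ^ (E - 2) ≤ (E + 2 + m) ^ (E - 2) := Nat.pow_le_pow_left (by omega) _
  have h6 : m ^ (E + 2) ≤ (E + 2 + m) ^ (E + 2) := Nat.pow_le_pow_left (by omega) _
  calc (E + 2) ^ (2 * E) * m ^ (E + 2) ≤ 16 ^ E * m ^ (E - 2) * m ^ (E + 2) :=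
        Nat.mul_le_mul_right _ h2
    _ ≤ 16 ^ E * (E + 2 + m) ^ (E - 2) * (E + 2 + m) ^ (E + 2) :=
        Nat.mul_le_mul (Nat.mul_le_mul_left _ h5) h6
    _ = 16 ^ E * ((E + 2 + m) ^ (E - 2) * (E + 2 + m) ^ (E + 2)) := by ring

/-- All `n = E + 2 ≥ 4`. -/
theorem GV' (hnum : S_numV) {E m D : ℕ} (hE : 2 ≤ E) (hm : 1 ≤ m)
    (hD : 1024 * m * (E + 2 + m) ^ 2 ≤ (E + 2) ^ 2 * D) : G ℂ (E + 1) m D := by
  rcases Nat.lt_or_ge (E + 2) m with hmE | hmE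
  · rcases Nat.lt_or_ge E 7 with hE7 | hE7
    · refine GU (by omega) hm (red_U (by omega) (small_n hE ?_) hD)
      interval_cases E <;> norm_num
    · by_cases hr : (m + E + 1) ^ 2 ≤ (E + 1) ^ 2 * 10 ^ (E + 1)
      · obtain ⟨L0, h1, h2⟩ : ∃ L0, 3 * (m + E + 1) ^ 2 ≤ (E + 1) * L0 ∧
            (E + 1) * L0 ≤ 4 * (m + E + 1) ^ 2 := by
          refine ⟨3 * (m + E + 1) ^ 2 / (E + 1) + 1, ?_, ?_⟩
          · have h3 := Nat.lt_mul_div_succ (3 * (m + E + 1) ^ 2) (show 0 < E + 1 by omega)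
            exact h3.le
          · have h3 := Nat.mul_div_le (3 * (m + E + 1) ^ 2) (E + 1)
            have h4 : E + 1 ≤ (m + E + 1) ^ 2 := by nlinarith
            rw [Nat.mul_add, Nat.mul_one]
            omega
        obtain ⟨hk, hgood⟩ := hnum E m L0 hE7 (by omega) hr h1 h2
        have h3 : 2 * m ≤ L0 := by
          have h4 : (E + 1) * (2 * m) ≤ (E + 1) * L0 := by nlinarith
          exact le_of_mul_le_mul_left h4 (by omega)
        refine ggg mkk E m (kA E m) (cA E m) (cB E m) L0 (L0 + m) D (tP1 (by omega) hm)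
          (tN1 (by omega) hm) (cN1 (by omega) hm) hm hk (by omega) le_rfl
          (fun d hd => hgood d (hD.trans (Nat.mul_le_mul_left _ hd)))
      · exact GU (by omega) hm (red_U (by omega) (large_m hE7 (by omega) (by omega)) hD)
  · refine GC (by omega) hm (by omega) ?_
    have h1 : (E + 2) ^ 2 * (1024 * m) ≤ (E + 2) ^ 2 * D := by
      refine le_trans ?_ hD
      rw [mul_comm]
      exact Nat.mul_le_mul_left _ (Nat.pow_le_pow_left (by omega) 2)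
    have h2 : 1024 * m ≤ D := le_of_mul_le_mul_left h1 (by positivity)
    omega

end Pool.Agent.H55.FU
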