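import Mathlib
import Pool.Agent.H55.FU.GV
import Pool.Agent.H36.FU.NumV

set_option autoImplicit false

/-!
# A bound which is linear for multiplicities of the order of the dimension
-/

namespace Pool.Agent.H55.FU

open Pool.Agent.W608.PR

/-- All `n = E + 2 ≥ 4`. -/
theorem GV {E m D : ℕ} (hE : 2 ≤ E) (hm : 1 ≤ m)
    (hD : 1024 * m * (E + 2 + m) ^ 2 ≤ (E + 2) ^ 2 * D) : G ℂ (E + 1) m D :=
  GV' Pool.Agent.H36.FU.V.numV hE hm hD

end Pool.Agent.H55.FU
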