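import Mathlib

/-!
# Project FU (helper55): the base inequalities for the numerical statement C (helper40)
-/

set_option autoImplicit false

namespace Pool.Agent.H55.FU.Cb

theorem sB {j : ℕ} (hj : 1 ≤ j) : 2 * (2 * j).choose j ≤ 4 ^ j := by
  induction j, hj using Nat.le_induction with
  | base => decide
  | succ j hj ih =>
    have h := Nat.succ_mul_centralBinom_succ j
    unfold Nat.centralBinom at h
    rw [pow_succ]
    have h1 : (j + 1) * (2 * (2 * (j + 1)).choose (j + 1)) ≤ (j + 1) * (4 ^ j * 4) := by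
      calc (j + 1) * (2 * (2 * (j + 1)).choose (j + 1))
          = 2 * ((j + 1) * (2 * (j + 1)).choose (j + 1)) := by ring
        _ = 2 * (2 * (2 * j + 1) * (2 * j).choose j) := by rw [h]
        _ = (2 * (2 * j + 1)) * (2 * (2 * j).choose j) := by ring
        _ ≤ (2 * (2 * j + 1)) * 4 ^ j := Nat.mul_le_mul_left _ ih
        _ ≤ (4 * (j + 1)) * 4 ^ j := Nat.mul_le_mul_right _ (by omega)
        _ = (j + 1) * (4 ^ j * 4) := by ring
    exact Nat.le_of_mul_le_mul_left h1 (by omega)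

theorem bin (n j : ℕ) (h : j ≤ n) : n.choose j * 9 ^ (n - j) ≤ 10 ^ n := by
  have h1 : (1 + 9 : ℕ) ^ n = ∑ m ∈ Finset.range (n + 1), 1 ^ m * 9 ^ (n - m) * n.choose m := add_pow 1 9 n
  have h2 : 1 ^ j * 9 ^ (n - j) * n.choose j ≤
      ∑ m ∈ Finset.range (n + 1), 1 ^ m * 9 ^ (n - m) * n.choose m :=
    Finset.single_le_sum (f := fun m => 1 ^ m * 9 ^ (n - m) * n.choose m) (fun _ _ => Nat.zero_le _)
      (Finset.mem_range.2 (by omega))
  rw [← h1, one_pow, one_mul] at h2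
  rw [mul_comm]
  exact h2

theorem N9B (j : ℕ) : (10 * j + 9).choose j ≤ 30 ^ j := by
  rcases lt_or_ge j 7 with hj | hj
  · interval_cases j <;> simp [Nat.choose]
  · have h1 := bin (10 * j + 9) j (by omega)
    have h2 : 10 * j + 9 - j = 9 * j + 9 := by omega
    rw [h2] at h1
    have h3 : 10 ^ (10 * j + 9) ≤ 30 ^ j * 9 ^ (9 * j + 9) := by
      clear h1 h2
      induction j, hj using Nat.le_induction with
      | base => norm_num
      | succ j hj ih =>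
        rw [show 10 * (j + 1) + 9 = (10 * j + 9) + 10 by ring, show 9 * (j + 1) + 9 = (9 * j + 9) + 9 by ring,
          pow_add 10, pow_add 9 (9 * j + 9), pow_succ 30]
        calc 10 ^ (10 * j + 9) * 10 ^ 10 ≤ (30 ^ j * 9 ^ (9 * j + 9)) * (30 * 9 ^ 9) :=
              Nat.mul_le_mul ih (by norm_num)
          _ = 30 ^ j * 30 * (9 ^ (9 * j + 9) * 9 ^ 9) := by ring
    exact Nat.le_of_mul_le_mul_right (h1.trans h3) (by positivity)

theorem bern (x n : ℕ) : x ^ n * (x + n) ≤ x * (x + 1) ^ n := by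
  induction n with
  | zero => simp
  | succ n ih =>
    calc x ^ (n + 1) * (x + (n + 1)) = x ^ n * (x * (x + (n + 1))) := by ring
      _ ≤ x ^ n * ((x + 1) * (x + n)) := Nat.mul_le_mul_left _ (by nlinarith)
      _ = (x + 1) * (x ^ n * (x + n)) := by ring
      _ ≤ (x + 1) * (x * (x + 1) ^ n) := Nat.mul_le_mul_left _ ih
      _ = x * (x + 1) ^ (n + 1) := by ring

theorem facB (j : ℕ) : j.factorial * 2 ^ j ≤ (j + 1) ^ j := by
  induction j with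
  | zero => simp
  | succ j ih =>
    have h1 := bern (j + 1) (j + 1)
    have h2 : 2 * (j + 1) ^ (j + 1) ≤ (j + 1 + 1) ^ (j + 1) := by
      refine Nat.le_of_mul_le_mul_left (le_trans (le_of_eq ?_) h1) (Nat.succ_pos j)
      ring
    refine le_trans ?_ h2
    rw [Nat.factorial_succ, pow_succ 2, pow_succ (j + 1)]
    calc (j + 1) * j.factorial * (2 ^ j * 2) = 2 * (j + 1) * (j.factorial * 2 ^ j) := by ring
      _ ≤ 2 * (j + 1) * (j + 1) ^ j := Nat.mul_le_mul_left _ ih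
      _ = 2 * ((j + 1) ^ j * (j + 1)) := by ring

theorem NlB (c j : ℕ) : (2 * c) ^ j ≤ (c * (j + 1) + j).choose j := by
  have h1 : (c * (j + 1) + j + 1 - j) ^ j ≤ (c * (j + 1) + j).descFactorial j :=
    Nat.pow_sub_le_descFactorial _ _
  rw [Nat.descFactorial_eq_factorial_mul_choose] at h1
  have h2 : (c * (j + 1)) ^ j ≤ j.factorial * (c * (j + 1) + j).choose j :=
    le_trans (Nat.pow_le_pow_left (by omega) j) h1
  have h3 : j.factorial * (2 * c) ^ j ≤ (c * (j + 1)) ^ j := by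
    rw [mul_pow, mul_pow]
    calc j.factorial * (2 ^ j * c ^ j) = c ^ j * (j.factorial * 2 ^ j) := by ring
      _ ≤ c ^ j * (j + 1) ^ j := Nat.mul_le_mul_left _ (facB j)
  exact Nat.le_of_mul_le_mul_left (h3.trans h2) (Nat.factorial_pos j)

theorem dec0 {b c j : ℕ} (h : b ≤ c) (hj : 4 ≤ j) : b ^ j * c ^ 4 ≤ b ^ 4 * c ^ j := by
  induction j, hj using Nat.le_induction with
  | base => exact le_rfl
  | succ j hj ih =>
    calc b ^ (j + 1) * c ^ 4 = b * (b ^ j * c ^ 4) := by ring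
      _ ≤ c * (b ^ 4 * c ^ j) := Nat.mul_le_mul h ih
      _ = b ^ 4 * c ^ (j + 1) := by ring

theorem dec1 {b c j : ℕ} (h : 2 * b ≤ c) (hj : 4 ≤ j) : (j + 1) * b ^ j * c ^ 4 ≤ 5 * b ^ 4 * c ^ j := by
  induction j, hj using Nat.le_induction with
  | base => exact le_rfl
  | succ j hj ih =>
    calc (j + 1 + 1) * b ^ (j + 1) * c ^ 4 = ((j + 2) * b) * (b ^ j * c ^ 4) := by ring
      _ ≤ ((j + 1) * (2 * b)) * (b ^ j * c ^ 4) := Nat.mul_le_mul_right _ (by nlinarith)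
      _ ≤ ((j + 1) * c) * (b ^ j * c ^ 4) := Nat.mul_le_mul_right _ (Nat.mul_le_mul_left _ h)
      _ = c * ((j + 1) * b ^ j * c ^ 4) := by ring
      _ ≤ c * (5 * b ^ 4 * c ^ j) := Nat.mul_le_mul_left _ ih
      _ = 5 * b ^ 4 * c ^ (j + 1) := by ring

theorem dec2 {b c j : ℕ} (h : 4 * b ≤ c) (hj : 4 ≤ j) :
    (j + 1) ^ 2 * b ^ j * c ^ 4 ≤ 25 * b ^ 4 * c ^ j := by
  induction j, hj using Nat.le_induction with
  | base => exact le_rfl
  | succ j hj ih =>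
    calc (j + 1 + 1) ^ 2 * b ^ (j + 1) * c ^ 4 = ((j + 2) ^ 2 * b) * (b ^ j * c ^ 4) := by ring
      _ ≤ ((j + 1) ^ 2 * (4 * b)) * (b ^ j * c ^ 4) := by
          refine Nat.mul_le_mul_right _ ?_
          have : (j + 2) ^ 2 ≤ 4 * (j + 1) ^ 2 := by nlinarith
          calc (j + 2) ^ 2 * b ≤ (4 * (j + 1) ^ 2) * b := Nat.mul_le_mul_right _ this
            _ = (j + 1) ^ 2 * (4 * b) := by ring
      _ ≤ ((j + 1) ^ 2 * c) * (b ^ j * c ^ 4) := Nat.mul_le_mul_right _ (Nat.mul_le_mul_left _ h)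
      _ = c * ((j + 1) ^ 2 * b ^ j * c ^ 4) := by ring
      _ ≤ c * (25 * b ^ 4 * c ^ j) := Nat.mul_le_mul_left _ ih
      _ = 25 * b ^ 4 * c ^ (j + 1) := by ring

/-- All the base inequalities at `k = j = m - 1`, `m = j + 1 ≥ 5`: `s = sz`, `2 a = s`, `N9 = N (9 m)`. -/
theorem big {j a s N9 : ℕ} (hj : 4 ≤ j) (hs : s = (2 * j).choose j) (ha : 2 * a = s)
    (h9 : N9 = (9 * (j + 1) + j).choose j) :
    (2 * (a * s + 1) ≤ (8 * (j + 1) + j).choose j) ∧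
    (11 * (s * N9) + 3 * (128 * (j + 1)) * (a * s ^ 2) + 2 * (128 * (j + 1)) * (a * s) + 2 * (a * s) +
      2 * (j + 1) * (a * s) + 2 * s ^ 2 ≤ (128 * (j + 1) + j).choose j) ∧
    (4 * (3 * (a * s ^ 2) + 2 * (a * s) + s * N9 + 2 * (j + 1) * (a * s) + 2 * s ^ 2 +
      2 * (127 * (j + 1) + 1) * (a * s)) ≤ (127 * (j + 1) + j).choose j) ∧
    (12 * (a * s ^ 2) ≤ (127 * (j + 1) + j).choose j) ∧
    ((j + 1) * (20 * (s * N9) + 6 * (128 * (j + 1)) * (a * s ^ 2)) < 128 * (128 * (j + 1) + j).choose j) := by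
  have e9 : 9 * (j + 1) + j = 10 * j + 9 := by ring
  rw [e9] at h9
  have hs1 : 2 * s ≤ 4 ^ j := by rw [hs]; exact sB (by omega)
  have hN9 : N9 ≤ 30 ^ j := by rw [h9]; exact N9B j
  have n8 : 16 ^ j ≤ (8 * (j + 1) + j).choose j := NlB 8 j
  have n127 : 254 ^ j ≤ (127 * (j + 1) + j).choose j := NlB 127 j
  have n128 : 256 ^ j ≤ (128 * (j + 1) + j).choose j := NlB 128 j
  -- sizes
  have k1 : 2 * (s * N9) ≤ 120 ^ j := by
    calc 2 * (s * N9) = (2 * s) * N9 := by ring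
      _ ≤ 4 ^ j * 30 ^ j := Nat.mul_le_mul hs1 hN9
      _ = 120 ^ j := by rw [← mul_pow]; norm_num
  have k2 : 16 * (a * s ^ 2) ≤ 64 ^ j := by
    calc 16 * (a * s ^ 2) = (2 * s) * (2 * s) * (2 * (2 * a)) := by ring
      _ = (2 * s) * (2 * s) * (2 * s) := by rw [ha]
      _ ≤ 4 ^ j * 4 ^ j * 4 ^ j := Nat.mul_le_mul (Nat.mul_le_mul hs1 hs1) hs1
      _ = 64 ^ j := by rw [← mul_pow, ← mul_pow]; norm_num
  have k3 : 4 * s ^ 2 ≤ 16 ^ j := by
    calc 4 * s ^ 2 = (2 * s) * (2 * s) := by ring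
      _ ≤ 4 ^ j * 4 ^ j := Nat.mul_le_mul hs1 hs1
      _ = 16 ^ j := by rw [← mul_pow]; norm_num
  have k4 : 8 * (a * s) ≤ 16 ^ j := by
    calc 8 * (a * s) = 4 * s * (2 * a) := by ring
      _ = 4 * s ^ 2 := by rw [ha]; ring
      _ ≤ 16 ^ j := k3
  have k3m : (j + 1) * (4 * s ^ 2) ≤ (j + 1) * 16 ^ j := Nat.mul_le_mul_left _ k3
  have k4m : (j + 1) * (8 * (a * s)) ≤ (j + 1) * 16 ^ j := Nat.mul_le_mul_left _ k4
  have k2m : (j + 1) * (16 * (a * s ^ 2)) ≤ (j + 1) * 64 ^ j := Nat.mul_le_mul_left _ k2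
  have k2m2 : (j + 1) ^ 2 * (16 * (a * s ^ 2)) ≤ (j + 1) ^ 2 * 64 ^ j := Nat.mul_le_mul_left _ k2
  have k1m : (j + 1) * (2 * (s * N9)) ≤ (j + 1) * 120 ^ j := Nat.mul_le_mul_left _ k1
  have p16 : 65536 ≤ 16 ^ j := le_trans (by norm_num) (Nat.pow_le_pow_right (by norm_num) hj)
  -- decay
  have d1 : 120 ^ j * 256 ^ 4 ≤ 120 ^ 4 * 256 ^ j := dec0 (by norm_num) hj
  have d2 : (j + 1) * 64 ^ j * 256 ^ 4 ≤ 5 * 64 ^ 4 * 256 ^ j := dec1 (by norm_num) hj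
  have d3 : (j + 1) * 16 ^ j * 256 ^ 4 ≤ 5 * 16 ^ 4 * 256 ^ j := dec1 (by norm_num) hj
  have d4 : (j + 1) ^ 2 * 64 ^ j * 256 ^ 4 ≤ 25 * 64 ^ 4 * 256 ^ j := dec2 (by norm_num) hj
  have d5 : (j + 1) * 120 ^ j * 256 ^ 4 ≤ 5 * 120 ^ 4 * 256 ^ j := dec1 (by norm_num) hj
  have d6 : 16 ^ j * 256 ^ 4 ≤ 16 ^ 4 * 256 ^ j := dec0 (by norm_num) hj
  have c1 : 120 ^ j * 254 ^ 4 ≤ 120 ^ 4 * 254 ^ j := dec0 (by norm_num) hj
  have c2 : 64 ^ j * 254 ^ 4 ≤ 64 ^ 4 * 254 ^ j := dec0 (by norm_num) hj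
  have c3 : (j + 1) * 16 ^ j * 254 ^ 4 ≤ 5 * 16 ^ 4 * 254 ^ j := dec1 (by norm_num) hj
  have c6 : 16 ^ j * 254 ^ 4 ≤ 16 ^ 4 * 254 ^ j := dec0 (by norm_num) hj
  generalize (8 * (j + 1) + j).choose j = M8 at n8 ⊢
  generalize (127 * (j + 1) + j).choose j = M127 at n127 ⊢
  generalize (128 * (j + 1) + j).choose j = M128 at n128 ⊢
  have r1 : 2 * (j + 1) * (a * s) = 2 * ((j + 1) * (a * s)) := by ring
  have r2 : 3 * (128 * (j + 1)) * (a * s ^ 2) = 384 * ((j + 1) * (a * s ^ 2)) := by ring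
  have r3 : 2 * (128 * (j + 1)) * (a * s) = 256 * ((j + 1) * (a * s)) := by ring
  have r4 : 2 * (127 * (j + 1) + 1) * (a * s) = 254 * ((j + 1) * (a * s)) + 2 * (a * s) := by ring
  have r5 : (j + 1) * (20 * (s * N9) + 6 * (128 * (j + 1)) * (a * s ^ 2)) =
      20 * ((j + 1) * (s * N9)) + 768 * ((j + 1) ^ 2 * (a * s ^ 2)) := by ring
  have q1 : (j + 1) * (2 * (s * N9)) = 2 * ((j + 1) * (s * N9)) := by ring
  have q2 : (j + 1) ^ 2 * (16 * (a * s ^ 2)) = 16 * ((j + 1) ^ 2 * (a * s ^ 2)) := by ring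
  have q3 : (j + 1) * (16 * (a * s ^ 2)) = 16 * ((j + 1) * (a * s ^ 2)) := by ring
  have q4 : (j + 1) * (8 * (a * s)) = 8 * ((j + 1) * (a * s)) := by ring
  rw [r1, r2, r3, r4, r5]
  rw [q1] at k1m
  rw [q2] at k2m2
  rw [q3] at k2m
  rw [q4] at k4m
  clear r1 r2 r3 r4 r5 q1 q2 q3 q4 hs hs1 h9 e9 hN9 k3m ha
  generalize (j + 1) * (s * N9) = u1 at *
  generalize (j + 1) ^ 2 * (a * s ^ 2) = u2 at *
  generalize (j + 1) * (a * s ^ 2) = u3 at *
  generalize (j + 1) * (a * s) = u4 at *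
  generalize a * s ^ 2 = u5 at *
  generalize a * s = u6 at *
  generalize s * N9 = u7 at *
  generalize s ^ 2 = u8 at *
  generalize (j + 1) * 64 ^ j = v1 at *
  generalize (j + 1) ^ 2 * 64 ^ j = v2 at *
  generalize (j + 1) * 120 ^ j = v3 at *
  generalize (j + 1) * 16 ^ j = v4 at *
  generalize 120 ^ j = v5 at *
  generalize 64 ^ j = v6 at *
  generalize 16 ^ j = v7 at *
  generalize 254 ^ j = v8 at *
  generalize 256 ^ j = v9 at *
  norm_num at d1 d2 d3 d4 d5 d6 c1 c2 c3 c6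
  refine ⟨?_, ?_, ?_, ?_, ?_⟩
  · omega
  · omega
  · omega
  · omega
  · omega

/-- All the base inequalities at `k = 3`, `m ≤ 4`. -/
theorem small {m a s N9 : ℕ} (h1 : 1 ≤ m) (h4 : m ≤ 4) (hs : s = (m - 1 + 3).choose 3)
    (ha : a = (m - 1 + 2).choose 2) (h9 : N9 = (9 * m + 3).choose 3) :
    (2 * (a * s + 1) ≤ (8 * m + 3).choose 3) ∧
    (11 * (s * N9) + 3 * (128 * m) * (a * s ^ 2) + 2 * (128 * m) * (a * s) + 2 * (a * s) +
      2 * m * (a * s) + 2 * s ^ 2 ≤ (128 * m + 3).choose 3) ∧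
    (4 * (3 * (a * s ^ 2) + 2 * (a * s) + s * N9 + 2 * m * (a * s) + 2 * s ^ 2 +
      2 * (127 * m + 1) * (a * s)) ≤ (127 * m + 3).choose 3) ∧
    (12 * (a * s ^ 2) ≤ (127 * m + 3).choose 3) ∧
    (4 * (20 * (s * N9) + 6 * (128 * m) * (a * s ^ 2)) < 128 * (128 * m + 3).choose 3) := by
  subst hs ha h9
  interval_cases m <;>
    simp [Nat.choose_eq_descFactorial_div_factorial, Nat.descFactorial, Nat.factorial]

end Pool.Agent.H55.FU.Cb
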